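import Pool.Agent.EG.RL.LinkR

/-!
# EG RL Q: the link theorem
-/

set_option autoImplicit false

open Topology Filter Metric Set

namespace Pool.Agent.EG.RL

variable {ι Y : Type}

/-- two frozen curves through the same central point are linked on a strip of uniform width, with uniform linear growth -/
theorem linkQ (M : Model ι Y) [Finite ι] {C₀ κ : ℝ} (hC₀ : 0 ≤ C₀) (hB : Bphi M C₀ κ) :
    ∃ ε : ℝ, 0 < ε ∧ ∀ (i j : ι) (μ ν t₀ h₀ h₁ : ℂ), M.k i * μ ^ M.a i = 1 → M.k j * ν ^ M.a j = 1 → ‖Complex.exp t₀‖ ≤ M.ρ / 2 →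
      Cen (M.X i μ t₀ h₀) → Cen (M.X j ν t₀ h₁) → M.s i (M.X i μ t₀ h₀) = M.s j (M.X j ν t₀ h₁) →
      LinkQ M κ i μ j ν t₀ h₀ h₁ ε (2 * C₀) := by
  obtain ⟨B, hBb⟩ : ∃ B : ℕ, ∀ i, (M.b i).natAbs ≤ B := by
    have h1 : (Set.range fun i => (M.b i).natAbs).Finite := Set.finite_range _
    obtain ⟨B, hB⟩ := h1.bddAbove
    exact ⟨B, fun i => hB ⟨i, rfl⟩⟩
  have hη := M.η_pos
  have hη4 := M.η_le
  have hBp : (0 : ℝ) < 1 + B := by positivity
  refine ⟨min (1 / (2 * (1 + B))) (M.η / 4), lt_min (by positivity) (by positivity), ?_⟩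
  set ε : ℝ := min (1 / (2 * (1 + B))) (M.η / 4) with hε
  have hε0 : 0 < ε := lt_min (by positivity) (by positivity)
  have hε1 : ε ≤ 1 / (2 * (1 + B)) := min_le_left _ _
  have hε2 : ε ≤ M.η / 4 := min_le_right _ _
  have hεB : ε * (1 + B) ≤ 1 / 2 := by
    have h1 := mul_le_mul_of_nonneg_right hε1 hBp.le
    have h2 : 1 / (2 * (1 + (B : ℝ))) * (1 + B) = 1 / 2 := by field_simp
    linarith
  have hεb : ∀ i, ε * (1 + |(M.b i : ℝ)|) ≤ 1 / 2 := by
    intro i
    have h1 : |(M.b i : ℝ)| ≤ B := by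
      have h2 : |(M.b i : ℝ)| = ((M.b i).natAbs : ℝ) := by
        rw [Nat.cast_natAbs, Int.cast_abs]
      rw [h2]
      exact_mod_cast hBb i
    have h2 := mul_le_mul_of_nonneg_left (by linarith : 1 + |(M.b i : ℝ)| ≤ 1 + B) hε0.le
    linarith
  have hεh : ε ≤ 1 / 2 := by linarith
  intro i j μ ν t₀ h₀ h₁ hμ hν ht hc hc' h
  have hρ := M.ρ_pos
  have he : Real.exp (t₀.re + ε) ≤ M.ρ := by
    rw [Real.exp_add, ← Complex.norm_exp]
    have h1 : Real.exp ε ≤ 2 := (Real.exp_le_exp.mpr hεh).trans exp_half_le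
    have h2 := Real.exp_pos ε
    have h3 := norm_nonneg (Complex.exp t₀)
    nlinarith
  have hu : M.u i (M.X i μ t₀ h₀) = Complex.exp t₀ := u_X M hμ t₀ h₀
  rcases M.trans i j _ _ hc hc' h (L_X_ne M hμ _ _) (L_X_ne M hν _ _) (by rw [hu]; linarith) with h1 | h1 | h1
  · subst h1
    obtain ⟨ζ, hζ, h2⟩ := M.inj i _ _ (cen_ball hc') (cen_ball hc) (L_X_ne M hν _ _) (L_X_ne M hμ _ _) h.symm
    exact link_same M hC₀ hB hε0 he (hεb i) hμ hν hζ hc' h2
  · have h2 := (h1.2.2.2.2.2.2 _ (cen_ball hc') (L_X_ne M hν _ _)).1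
    rw [h2] at h
    have h4 : (M.X j ν t₀ h₁).swap ∈ ball (0 : ℂ × ℂ) 2 := by
      have h3 := cen_ball hc'
      rw [mem_bi] at h3 ⊢
      exact ⟨h3.2, h3.1⟩
    have h5 : M.L i (M.X j ν t₀ h₁).swap ≠ 0 := by
      have h3 := L_X_ne M hν t₀ h₁
      unfold Atl.L at h3 ⊢
      rw [if_pos h1.2.1] at h3
      rw [if_pos h1.1, Prod.fst_swap, Prod.snd_swap, mul_comm]
      exact h3
    obtain ⟨ζ, hζ, h3⟩ := M.inj i _ _ h4 (cen_ball hc) h5 (L_X_ne M hμ _ _) h.symm
    exact link_swap M hC₀ hB hε0 he (hεb j) h1 hμ hν hζ hc' h3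
  · refine link_reg M hC₀ hB hε0 he ?_ ?_ hμ hν hc hc' h1
    · exact (Real.exp_le_exp.mpr (hεb j)).trans exp_half_le
    · intro h' hh'
      unfold yb
      by_cases hb : M.ex j = true
      · rw [if_pos hb, if_pos hb]
        have h2 : ‖Complex.exp h₁‖ < 1 := by
          have h3 := hc'.2
          simp only [Atl.X, yb, if_pos hb] at h3
          exact h3
        have h4 : ‖h' - h₁‖ < ε := by rw [← dist_eq_norm]; exact mem_ball.mp hh'
        have h5 : Complex.exp h' - Complex.exp h₁ = Complex.exp h₁ * (Complex.exp (h' - h₁) - 1) := by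
          rw [mul_sub, ← Complex.exp_add]
          ring_nf
        have h6 : ‖Complex.exp (h' - h₁) - 1‖ ≤ 2 * ‖h' - h₁‖ := by
          have := Complex.norm_exp_sub_one_le (x := h' - h₁) (by linarith)
          linarith
        rw [dist_eq_norm, h5, norm_mul]
        have h7 := norm_nonneg (Complex.exp (h' - h₁) - 1)
        nlinarith [norm_nonneg (h' - h₁), norm_nonneg (Complex.exp h₁)]
      · rw [if_neg hb, if_neg hb]
        have := mem_ball.mp hh'
        linarith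

end Pool.Agent.EG.RL
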