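import Pool.Agent.EG.RL.Cell

/-!
# EG RL Bd: bounds for the densities

Ends: the coefficients `g` are bounded, `κ = 0`.  Holes: the form is holomorphic across the fibre, so `g = O (x)` (`b = 0`), `g = O (x y)` (`1 ≤ b`), `κ > 0`.
-/

set_option autoImplicit false

open Topology Filter Metric Set

namespace Pool.Agent.EG.RL

variable {ι Y : Type}

theorem bphi_end (M : Model ι Y) [Finite ι] (hg : ∀ i, ∃ C : ℝ, ∀ p ∈ ball (0 : ℂ × ℂ) 2, M.L i p ≠ 0 → ∀ t, Complex.exp t = M.u i p → ‖M.g i t p‖ ≤ C) :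
    ∃ C₀ : ℝ, 0 ≤ C₀ ∧ Bphi M C₀ 0 := by
  choose C hC using hg
  obtain ⟨B, hB⟩ := (Set.finite_range C).bddAbove
  refine ⟨max B 0, le_max_right _ _, fun i μ t h hμ hX _ => ?_⟩
  rw [zero_mul, Real.exp_zero, mul_one]
  unfold Atl.phi
  rw [norm_div, Complex.norm_natCast]
  have ha : (1 : ℝ) ≤ M.a i := by exact_mod_cast M.a_pos i
  calc ‖M.g i t (M.X i μ t h)‖ / M.a i ≤ ‖M.g i t (M.X i μ t h)‖ := div_le_self (norm_nonneg _) ha
    _ ≤ C i := hC i _ hX (L_X_ne M hμ t h) t (u_X M hμ t h).symm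
    _ ≤ B := hB ⟨i, rfl⟩
    _ ≤ _ := le_max_left _ _

/-- the product of the coordinates is small -/
private theorem bd_key {x y K T : ℝ} {a b : ℕ} (ha : 1 ≤ a) (hx0 : 0 ≤ x) (hx : x < 2) (hy0 : 0 ≤ y) (hy : y < 2) (hK : 0 < K)
    (hu : K * x ^ a * y ^ b = Real.exp T) : x * y / 4 ≤ max 1 (1 / K) * Real.exp (1 / (max a b : ℕ) * T) := by
  set m : ℕ := max a b with hm
  have hm1 : 1 ≤ m := ha.trans (le_max_left _ _)
  set m₀ : ℝ := max 1 (1 / K) with hm₀
  have hm₀1 : 1 ≤ m₀ := le_max_left _ _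
  have hR : 0 ≤ m₀ * Real.exp (1 / m * T) := by positivity
  refine le_of_pow_le_pow_left₀ (n := m) (by omega) hR ?_
  have h1 : (m₀ * Real.exp (1 / m * T)) ^ m = m₀ ^ m * Real.exp T := by
    rw [mul_pow, ← Real.exp_nat_mul]
    congr 2
    field_simp
  have h2 : m₀ ≤ m₀ ^ m := le_self_pow₀ hm₀1 (by omega)
  have h3 : x ^ a * y ^ b ≤ m₀ * Real.exp T := by
    have h4 : x ^ a * y ^ b = 1 / K * Real.exp T := by
      rw [← hu]
      field_simp
    rw [h4]
    exact mul_le_mul_of_nonneg_right (le_max_right _ _) (Real.exp_pos _).le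
  rw [h1]
  refine le_trans ?_ (h3.trans (mul_le_mul_of_nonneg_right h2 (Real.exp_pos _).le))
  have hxa : (x / 2) ^ m ≤ (x / 2) ^ a := pow_le_pow_of_le_one (by positivity) (by linarith) (le_max_left _ _)
  have hxb : (x / 2) ^ a ≤ x ^ a := pow_le_pow_left₀ (by positivity) (by linarith) _
  have hya : (y / 2) ^ m ≤ (y / 2) ^ b := pow_le_pow_of_le_one (by positivity) (by linarith) (le_max_right _ _)
  have hyb : (y / 2) ^ b ≤ y ^ b := pow_le_pow_left₀ (by positivity) (by linarith) _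
  have h6 : (x * y / 4) ^ m = (x / 2) ^ m * (y / 2) ^ m := by
    rw [← mul_pow]
    congr 1
    ring
  rw [h6]
  exact mul_le_mul (hxa.trans hxb) (hya.trans hyb) (by positivity) (by positivity)

theorem bphi_hole (M : Model ι Y) [Finite ι] (hb : ∀ i, 0 ≤ M.b i)
    (hg : ∀ i, ∃ C : ℝ, ∀ p ∈ ball (0 : ℂ × ℂ) 2, M.L i p ≠ 0 → ∀ t, Complex.exp t = M.u i p →
      ‖M.g i t p‖ ≤ C * (‖p.1‖ * (if M.b i = 0 then 1 else ‖p.2‖))) :
    ∃ C₀ κ : ℝ, 0 ≤ C₀ ∧ 0 < κ ∧ Bphi M C₀ κ := by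
  choose C hC using hg
  obtain ⟨B, hB⟩ := (Set.finite_range C).bddAbove
  obtain ⟨A, hA⟩ := (Set.finite_range fun i => max (M.a i) (M.b i).toNat).bddAbove
  obtain ⟨K, hK⟩ := (Set.finite_range fun i => max 1 (1 / ‖M.k i‖)).bddAbove
  have hρ := M.ρ_pos
  refine ⟨4 * max B 0 * max K 0 * (1 + M.ρ), 1 / (A + 1), by positivity, by positivity, fun i μ t h hμ hX ht => ?_⟩
  have hk : 0 < ‖M.k i‖ := norm_pos_iff.2 (k_ne M i)
  have hX' := hX
  rw [mem_bi] at hX'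
  obtain ⟨hx, hy⟩ := hX'
  have hu := congrArg norm (u_X M hμ t h)
  rw [Complex.norm_exp] at hu
  set m : ℕ := max (M.a i) (M.b i).toNat with hm
  have hm1 : 1 ≤ m := (M.a_pos i).trans (le_max_left _ _)
  have hmA : m ≤ A := hA ⟨i, rfl⟩
  have hKi : max 1 (1 / ‖M.k i‖) ≤ K := hK ⟨i, rfl⟩
  -- the estimate with the exponent `1 / m`
  have key : ‖(M.X i μ t h).1‖ * (if M.b i = 0 then 1 else ‖(M.X i μ t h).2‖) ≤
      4 * (max 1 (1 / ‖M.k i‖) * Real.exp (1 / m * t.re)) := by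
    change ‖M.k i * (M.X i μ t h).1 ^ M.a i * (M.X i μ t h).2 ^ M.b i‖ = _ at hu
    rw [norm_mul, norm_mul, norm_pow, norm_zpow] at hu
    by_cases hb0 : M.b i = 0
    · rw [if_pos hb0]
      rw [hb0, zpow_zero, mul_one] at hu
      have h1 := bd_key (x := ‖(M.X i μ t h).1‖) (y := 1) (b := (M.b i).toNat) (M.a_pos i) (norm_nonneg _) hx zero_le_one (by norm_num) hk
        (by rw [one_pow, mul_one]; exact hu)
      rw [mul_one] at h1 ⊢
      linarith
    · rw [if_neg hb0]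
      have h2 : ((M.b i).toNat : ℤ) = M.b i := Int.toNat_of_nonneg (hb i)
      have h1 := bd_key (x := ‖(M.X i μ t h).1‖) (y := ‖(M.X i μ t h).2‖) (b := (M.b i).toNat) (M.a_pos i) (norm_nonneg _) hx (norm_nonneg _) hy hk
        (by rw [← zpow_natCast ‖(M.X i μ t h).2‖, h2]; exact hu)
      linarith
  have hT : t.re < Real.log (1 + M.ρ) := by
    rw [Real.lt_log_iff_exp_lt (by linarith), ← Complex.norm_exp]
    linarith
  have hL : 0 ≤ Real.log (1 + M.ρ) := Real.log_nonneg (by linarith)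
  have hm1' : (1 : ℝ) ≤ m := by exact_mod_cast hm1
  have hmA' : (m : ℝ) ≤ A := by exact_mod_cast hmA
  have hexp : Real.exp (1 / m * t.re) ≤ (1 + M.ρ) * Real.exp (1 / (A + 1) * t.re) := by
    have h1 : 1 / (m : ℝ) * t.re ≤ Real.log (1 + M.ρ) + 1 / (A + 1) * t.re := by
      have h2 : 0 ≤ 1 / (m : ℝ) - 1 / (A + 1) := by
        rw [sub_nonneg]
        exact one_div_le_one_div_of_le (by linarith) (by linarith)
      have h3 : 1 / (m : ℝ) - 1 / (A + 1) ≤ 1 := by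
        have h4 : 1 / (m : ℝ) ≤ 1 := by
          rw [div_le_one (by linarith)]
          exact hm1'
        have h5 : 0 < 1 / ((A : ℝ) + 1) := by positivity
        linarith
      have h4 : (1 / (m : ℝ) - 1 / (A + 1)) * t.re ≤ (1 / (m : ℝ) - 1 / (A + 1)) * Real.log (1 + M.ρ) :=
        mul_le_mul_of_nonneg_left hT.le h2
      have h5 : (1 / (m : ℝ) - 1 / (A + 1)) * Real.log (1 + M.ρ) ≤ 1 * Real.log (1 + M.ρ) := mul_le_mul_of_nonneg_right h3 hL
      linarith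
    calc Real.exp (1 / m * t.re) ≤ Real.exp (Real.log (1 + M.ρ) + 1 / (A + 1) * t.re) := Real.exp_le_exp.2 h1
      _ = _ := by rw [Real.exp_add, Real.exp_log (by linarith)]
  unfold Atl.phi
  rw [norm_div, Complex.norm_natCast]
  have ha : (1 : ℝ) ≤ M.a i := by exact_mod_cast M.a_pos i
  have hi0 : 0 ≤ ‖(M.X i μ t h).1‖ * (if M.b i = 0 then 1 else ‖(M.X i μ t h).2‖) := by
    refine mul_nonneg (norm_nonneg _) ?_
    split_ifs
    · exact zero_le_one
    · exact norm_nonneg _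
  calc ‖M.g i t (M.X i μ t h)‖ / M.a i ≤ ‖M.g i t (M.X i μ t h)‖ := div_le_self (norm_nonneg _) ha
    _ ≤ C i * (‖(M.X i μ t h).1‖ * (if M.b i = 0 then 1 else ‖(M.X i μ t h).2‖)) :=
        hC i _ hX (L_X_ne M hμ t h) t (u_X M hμ t h).symm
    _ ≤ max B 0 * (‖(M.X i μ t h).1‖ * (if M.b i = 0 then 1 else ‖(M.X i μ t h).2‖)) :=
        mul_le_mul_of_nonneg_right ((hB ⟨i, rfl⟩).trans (le_max_left _ _)) hi0
    _ ≤ max B 0 * (4 * (max K 0 * ((1 + M.ρ) * Real.exp (1 / (A + 1) * t.re)))) := by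
        refine mul_le_mul_of_nonneg_left (key.trans ?_) (le_max_right _ _)
        refine mul_le_mul_of_nonneg_left ?_ (by norm_num)
        exact mul_le_mul (hKi.trans (le_max_left _ _)) hexp (Real.exp_pos _).le (le_max_right _ _)
    _ = _ := by ring

end Pool.Agent.EG.RL
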