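import Pool.Agent.EG.RL.Defs

/-!
# EG RL Cell: elementary properties of the cells
-/

set_option autoImplicit false

open Topology Filter Metric Set

namespace Pool.Agent.EG.RL

open Pool.Agent.H14.PP (jac)

variable {ι Y : Type}

/-- membership in the bidisc -/
theorem mem_bi {p : ℂ × ℂ} : p ∈ ball (0 : ℂ × ℂ) 2 ↔ ‖p.1‖ < 2 ∧ ‖p.2‖ < 2 := by
  rw [mem_ball_zero_iff, Prod.norm_def, max_lt_iff]

theorem cen_ball {p : ℂ × ℂ} (hp : Cen p) : p ∈ ball (0 : ℂ × ℂ) 2 := by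
  rw [mem_bi]
  exact ⟨by linarith [hp.1], by linarith [hp.2]⟩

theorem yb_true {h : ℂ} : yb true h = Complex.exp h := if_pos rfl

theorem yb_false {h : ℂ} : yb false h = h := if_neg (by simp)

/-- the derivative of `yb` -/
noncomputable def yb' (e : Bool) (h : ℂ) : ℂ := if e = true then Complex.exp h else 1

theorem yb_hasDerivAt (e : Bool) (h : ℂ) : HasDerivAt (yb e) (yb' e h) h := by
  cases e with
  | false =>
    have h1 : yb false = fun h => h := by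
      funext h
      exact yb_false
    rw [h1, yb', if_neg (by simp)]
    exact hasDerivAt_id h
  | true =>
    have h1 : yb true = Complex.exp := by
      funext h
      exact yb_true
    rw [h1, yb', if_pos rfl]
    exact Complex.hasDerivAt_exp h

theorem yb_an (e : Bool) (h : ℂ) : AnalyticAt ℂ (yb e) h := by
  cases e with
  | false =>
    have h1 : yb false = fun h => h := by
      funext h
      exact yb_false
    rw [h1]
    exact analyticAt_id
  | true =>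
    have h1 : yb true = Complex.exp := by
      funext h
      exact yb_true
    rw [h1]
    exact analyticAt_cexp

theorem k_ne (M : Model ι Y) (i : ι) : M.k i ≠ 0 := by
  have h1 := M.ρ_le i
  have h2 := M.ρ_pos
  exact norm_pos_iff.1 (h2.trans_le h1)

theorem mu_ne (M : Model ι Y) {i : ι} {μ : ℂ} (hμ : M.k i * μ ^ M.a i = 1) : μ ≠ 0 := by
  rintro rfl
  have h1 := M.a_pos i
  rw [zero_pow (by omega), mul_zero] at hμ
  exact zero_ne_one hμ

theorem a_ne (M : Model ι Y) (i : ι) : (M.a i : ℂ) ≠ 0 := Nat.cast_ne_zero.2 (by have := M.a_pos i; omega)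

theorem X_fst_ne (M : Model ι Y) {i : ι} {μ : ℂ} (hμ : M.k i * μ ^ M.a i = 1) (t h : ℂ) : (M.X i μ t h).1 ≠ 0 :=
  mul_ne_zero (mu_ne M hμ) (Complex.exp_ne_zero _)

/-- the log frame of a chart does not vanish on the cells -/
theorem L_X (M : Model ι Y) (i : ι) (μ t h : ℂ) : M.L i (M.X i μ t h) = (M.X i μ t h).1 * yb' (M.ex i) h := by
  unfold Atl.L yb'
  by_cases he : M.ex i = true
  · rw [if_pos he, if_pos he]
    have h1 : (M.X i μ t h).2 = yb (M.ex i) h := rfl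
    rw [h1, he, yb_true]
  · rw [if_neg he, if_neg he]

theorem yb'_ne (e : Bool) (h : ℂ) : yb' e h ≠ 0 := by
  unfold yb'
  split_ifs
  · exact Complex.exp_ne_zero _
  · exact one_ne_zero

theorem L_X_ne (M : Model ι Y) {i : ι} {μ : ℂ} (hμ : M.k i * μ ^ M.a i = 1) (t h : ℂ) : M.L i (M.X i μ t h) ≠ 0 := by
  rw [L_X]
  exact mul_ne_zero (X_fst_ne M hμ t h) (yb'_ne _ _)

theorem u_X (M : Model ι Y) {i : ι} {μ : ℂ} (hμ : M.k i * μ ^ M.a i = 1) (t h : ℂ) : M.u i (M.X i μ t h) = Complex.exp t := by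
  have ha := a_ne M i
  have h1 : Complex.exp ((t - M.b i * h) / M.a i) ^ M.a i = Complex.exp (t - M.b i * h) := by
    rw [← Complex.exp_nat_mul, mul_div_cancel₀ _ ha]
  have h2 : yb (M.ex i) h ^ M.b i = Complex.exp (M.b i * h) := by
    by_cases he : M.ex i = true
    · rw [he, yb_true, ← Complex.exp_int_mul]
    · have h3 := M.b_ex i (by simpa using he)
      rw [h3]
      simp
  change M.k i * (μ * Complex.exp ((t - M.b i * h) / M.a i)) ^ M.a i * yb (M.ex i) h ^ M.b i = _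
  rw [h2, mul_pow, h1, ← mul_assoc, hμ, one_mul, ← Complex.exp_add]
  congr 1
  ring

theorem X_an (M : Model ι Y) (i : ι) (μ : ℂ) (p : ℂ × ℂ) : AnalyticAt ℂ (fun p : ℂ × ℂ => M.X i μ p.1 p.2) p := by
  have h1 : AnalyticAt ℂ (fun p : ℂ × ℂ => μ * Complex.exp ((p.1 - M.b i * p.2) / M.a i)) p := by
    refine analyticAt_const.mul ?_
    refine AnalyticAt.cexp ?_
    exact (analyticAt_fst.sub (analyticAt_const.mul analyticAt_snd)).div_const
  have h2 : AnalyticAt ℂ (fun p : ℂ × ℂ => yb (M.ex i) p.2) p :=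
    (yb_an (M.ex i) p.2).fun_comp analyticAt_snd
  exact h1.prod h2

/-- `t` as a local function of the point of the cell -/
theorem local_t (M : Model ι Y) {i : ι} {μ : ℂ} (hμ : M.k i * μ ^ M.a i = 1) (t₀ h₀ : ℂ) :
    ∃ T : ℂ × ℂ → ℂ, AnalyticAt ℂ T (M.X i μ t₀ h₀) ∧ (∀ᶠ q in 𝓝 (M.X i μ t₀ h₀), Complex.exp (T q) = M.u i q) ∧
      ∀ᶠ p in 𝓝 ((t₀, h₀) : ℂ × ℂ), T (M.X i μ p.1 p.2) = p.1 := by
  have hu := u_X M hμ t₀ h₀
  have hE := Complex.exp_ne_zero t₀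
  have hL := L_X_ne M hμ t₀ h₀
  set x := M.X i μ t₀ h₀ with hx
  have hua : AnalyticAt ℂ (fun q : ℂ × ℂ => M.u i q) x := by
    unfold Atl.u
    refine (analyticAt_const.mul (analyticAt_fst.pow _)).mul ?_
    by_cases h2 : x.2 = 0
    · have hb : M.b i = 0 := by
        by_contra hb
        have h3 : M.ex i = true := by
          by_contra h4
          exact hb (M.b_ex i (by simpa using h4))
        unfold Atl.L at hL
        rw [if_pos h3, h2, mul_zero] at hL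
        exact hL rfl
      rw [hb]
      simp only [zpow_zero]
      exact analyticAt_const
    · exact analyticAt_snd.zpow h2
  have hdiv : AnalyticAt ℂ (fun q : ℂ × ℂ => M.u i q / Complex.exp t₀) x := hua.div analyticAt_const hE
  have h1 : M.u i x / Complex.exp t₀ = 1 := by rw [hu, div_self hE]
  refine ⟨fun q => t₀ + Complex.log (M.u i q / Complex.exp t₀), ?_, ?_, ?_⟩
  · refine analyticAt_const.add (hdiv.clog ?_)
    rw [h1]
    exact Complex.one_mem_slitPlane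
  · have h2 : ∀ᶠ q in 𝓝 x, M.u i q / Complex.exp t₀ ≠ 0 := hdiv.continuousAt.eventually_ne (by rw [h1]; exact one_ne_zero)
    filter_upwards [h2] with q hq
    rw [Complex.exp_add, Complex.exp_log hq, mul_div_cancel₀ _ hE]
  · have h2 : ∀ᶠ p : ℂ × ℂ in 𝓝 (t₀, h₀), |(p.1 - t₀).im| < Real.pi := by
      have hc : ContinuousAt (fun p : ℂ × ℂ => |(p.1 - t₀).im|) (t₀, h₀) := by fun_prop
      exact hc.eventually_lt continuousAt_const (by simp [Real.pi_pos])
    filter_upwards [h2] with p hp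
    rw [u_X M hμ, ← Complex.exp_sub, Complex.log_exp]
    · ring
    · exact (abs_lt.1 hp).1
    · exact (abs_lt.1 hp).2.le

theorem phi_an (M : Model ι Y) {i : ι} {μ : ℂ} (hμ : M.k i * μ ^ M.a i = 1) {p : ℂ × ℂ} (hp : M.X i μ p.1 p.2 ∈ ball (0 : ℂ × ℂ) 2) :
    AnalyticAt ℂ (fun p : ℂ × ℂ => M.phi i μ p.1 p.2) p := by
  have h1 := X_an M i μ p
  obtain ⟨T, hT, hTe, hTX⟩ := local_t M hμ p.1 p.2
  have h2 : AnalyticAt ℂ (fun q : ℂ × ℂ => M.g i (T q) q) (M.X i μ p.1 p.2) := M.g_an i _ hp (L_X_ne M hμ _ _) T hT hTe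
  have h3 : AnalyticAt ℂ (fun q : ℂ × ℂ => M.g i (T (M.X i μ q.1 q.2)) (M.X i μ q.1 q.2)) p :=
    AnalyticAt.fun_comp (g := fun q : ℂ × ℂ => M.g i (T q) q) (f := fun q : ℂ × ℂ => M.X i μ q.1 q.2) h2 h1
  refine AnalyticAt.congr (f := fun q : ℂ × ℂ => M.g i (T (M.X i μ q.1 q.2)) (M.X i μ q.1 q.2) / (M.a i : ℂ)) h3.div_const ?_
  filter_upwards [hTX] with q hq
  show M.g i (T (M.X i μ q.1 q.2)) (M.X i μ q.1 q.2) / M.a i = M.phi i μ q.1 q.2
  rw [hq]
  rfl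

theorem jac_X (M : Model ι Y) (i : ι) (μ : ℂ) (p : ℂ × ℂ) :
    jac (fun p : ℂ × ℂ => M.X i μ p.1 p.2) p = M.L i (M.X i μ p.1 p.2) / M.a i := by
  have h1 : HasFDerivAt (fun p : ℂ × ℂ => μ * Complex.exp ((p.1 - M.b i * p.2) * (M.a i : ℂ)⁻¹))
      (μ • (Complex.exp ((p.1 - M.b i * p.2) * (M.a i : ℂ)⁻¹) •
        ((M.a i : ℂ)⁻¹ • (ContinuousLinearMap.fst ℂ ℂ ℂ - (M.b i : ℂ) • ContinuousLinearMap.snd ℂ ℂ ℂ)))) p :=
    (((hasFDerivAt_fst.sub (hasFDerivAt_snd.const_mul (M.b i : ℂ))).mul_const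
      ((M.a i : ℂ)⁻¹)).cexp.const_mul μ)
  have h2 : HasFDerivAt (fun p : ℂ × ℂ => yb (M.ex i) p.2)
      (yb' (M.ex i) p.2 • ContinuousLinearMap.snd ℂ ℂ ℂ) p :=
    (yb_hasDerivAt (M.ex i) p.2).comp_hasFDerivAt p hasFDerivAt_snd
  have h3 : (fun p : ℂ × ℂ => M.X i μ p.1 p.2) = fun p : ℂ × ℂ =>
      (μ * Complex.exp ((p.1 - M.b i * p.2) * (M.a i : ℂ)⁻¹), yb (M.ex i) p.2) := by
    funext p
    rw [← div_eq_mul_inv]
    rfl
  have h4 := (h1.prodMk h2).fderiv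
  rw [L_X, jac, h3, h4]
  simp only [ContinuousLinearMap.prod_apply, smul_apply, sub_apply, ContinuousLinearMap.coe_fst',
    ContinuousLinearMap.coe_snd', smul_eq_mul]
  change _ = μ * Complex.exp ((p.1 - M.b i * p.2) / M.a i) * yb' (M.ex i) p.2 / M.a i
  rw [div_eq_mul_inv (p.1 - M.b i * p.2)]
  ring

theorem X_norm (M : Model ι Y) (i : ι) (μ t g : ℂ) : ‖(M.X i μ t g).1‖ =
    ‖μ‖ * Real.exp (t.re / M.a i) * Real.exp (-(M.b i * g.re / M.a i)) := by
  change ‖μ * Complex.exp ((t - M.b i * g) / M.a i)‖ = _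
  have h1 : ((t - M.b i * g) / M.a i).re = t.re / M.a i + -(M.b i * g.re / M.a i) := by
    rw [Complex.div_natCast_re, Complex.sub_re, Complex.mul_re, Complex.intCast_re,
      Complex.intCast_im, zero_mul, sub_zero]
    ring
  rw [norm_mul, Complex.norm_exp, mul_assoc, ← Real.exp_add, h1]

/-- the slices of the cells are star shaped -/
theorem X_slice (M : Model ι Y) {i : ι} {μ t h : ℂ} (hμ : M.k i * μ ^ M.a i = 1) (ht : ‖Complex.exp t‖ < M.ρ)
    (hX : M.X i μ t h ∈ ball (0 : ℂ × ℂ) 2) {r : ℝ} (hr : r ∈ Icc (0 : ℝ) 1) : M.X i μ t (r * h) ∈ ball (0 : ℂ × ℂ) 2 := by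
  obtain ⟨hr0, hr1⟩ := hr
  rw [mem_bi] at hX ⊢
  obtain ⟨h1, h2⟩ := hX
  have ha : 0 < (M.a i : ℝ) := Nat.cast_pos.2 (M.a_pos i)
  have hexp : ∀ c : ℝ, Real.exp (r * c) ≤ max 1 (Real.exp c) := by
    intro c
    rcases le_total c 0 with hc | hc
    · refine le_max_of_le_left ?_
      rw [Real.exp_le_one_iff]
      exact mul_nonpos_of_nonneg_of_nonpos hr0 hc
    · refine le_max_of_le_right (Real.exp_le_exp.2 ?_)
      nlinarith
  have hnorm := X_norm M i μ t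
  have hA : ‖μ‖ * Real.exp (t.re / M.a i) < 1 := by
    by_contra hcon
    push Not at hcon
    have h3 : (1 : ℝ) ≤ (‖μ‖ * Real.exp (t.re / M.a i)) ^ M.a i := one_le_pow₀ hcon
    have h4 : (‖μ‖ * Real.exp (t.re / M.a i)) ^ M.a i = ‖μ‖ ^ M.a i * ‖Complex.exp t‖ := by
      rw [mul_pow, ← Real.exp_nat_mul, mul_div_cancel₀ _ ha.ne', Complex.norm_exp]
    have h5 : ‖M.k i‖ * ‖μ‖ ^ M.a i = 1 := by
      rw [← norm_pow, ← norm_mul, hμ, norm_one]
    have h6 : ‖Complex.exp t‖ < ‖M.k i‖ := ht.trans_le (M.ρ_le i)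
    have h7 : 0 < ‖μ‖ ^ M.a i := by
      by_contra h8
      push Not at h8
      nlinarith [norm_nonneg (M.k i)]
    rw [h4] at h3
    nlinarith
  have hA0 : 0 ≤ ‖μ‖ * Real.exp (t.re / M.a i) := by positivity
  constructor
  · rw [hnorm] at h1 ⊢
    have h3 : -(M.b i * ((r : ℂ) * h).re / M.a i) = r * -(M.b i * h.re / M.a i) := by
      rw [Complex.re_ofReal_mul]
      ring
    rw [h3]
    have h4 := hexp (-(M.b i * h.re / M.a i))
    refine (mul_le_mul_of_nonneg_left h4 hA0).trans_lt ?_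
    rw [mul_max_of_nonneg _ _ hA0]
    refine max_lt ?_ h1
    linarith
  · change ‖yb (M.ex i) h‖ < 2 at h2
    change ‖yb (M.ex i) (r * h)‖ < 2
    unfold yb at h2 ⊢
    split_ifs at h2 ⊢ with hb
    · rw [Complex.norm_exp] at h2 ⊢
      rw [Complex.re_ofReal_mul]
      refine (hexp _).trans_lt (max_lt ?_ h2)
      norm_num
    · rw [norm_mul, Complex.norm_real, Real.norm_of_nonneg hr0]
      nlinarith [norm_nonneg h]

theorem yb_inj (e : Bool) (h₀ : ℂ) : ∀ h ∈ ball h₀ 1, ∀ h' ∈ ball h₀ 1, yb e h = yb e h' → h = h' := by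
  intro h hh h' hh' heq
  unfold yb at heq
  split_ifs at heq with hb
  · obtain ⟨n, hn⟩ := Complex.exp_eq_exp_iff_exists_int.1 heq
    have h1 : ‖h - h'‖ < 2 := by
      rw [mem_ball, dist_eq_norm] at hh hh'
      calc ‖h - h'‖ = ‖(h - h₀) - (h' - h₀)‖ := by
            congr 1
            ring
        _ ≤ ‖h - h₀‖ + ‖h' - h₀‖ := norm_sub_le _ _
        _ < 2 := by linarith
    have h2 : h - h' = n * (2 * Real.pi * Complex.I) := by
      rw [hn]
      ring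
    rw [h2, norm_mul, norm_mul, norm_mul, Complex.norm_I, mul_one, Complex.norm_intCast,
      Complex.norm_real, Real.norm_of_nonneg Real.pi_pos.le] at h1
    have h3 : (n : ℝ) = 0 := by
      by_contra h4
      have h5 : (1 : ℝ) ≤ |(n : ℝ)| := by
        have h6 : n ≠ 0 := by exact_mod_cast h4
        exact_mod_cast Int.one_le_abs h6
      have h7 : ‖(2 : ℂ)‖ = 2 := by norm_num
      rw [h7] at h1
      nlinarith [Real.pi_gt_three]
    have h8 : n = 0 := by exact_mod_cast h3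
    rw [hn, h8]
    simp
  · exact heq

theorem rot_one (p : ℂ × ℂ) : rot 1 p = p := by
  unfold rot
  rw [one_mul, inv_one, one_mul]

theorem orb_ne_zero {n : ℕ} (hn : 1 ≤ n) {ζ : ℂ} (hζ : ζ ^ n = 1) : ζ ≠ 0 := by
  rintro rfl
  rw [zero_pow (by omega)] at hζ
  exact zero_ne_one hζ

theorem orb_norm {n : ℕ} (hn : 1 ≤ n) {ζ : ℂ} (hζ : ζ ^ n = 1) : ‖ζ‖ = 1 := Complex.norm_eq_one_of_pow_eq_one hζ (by omega)

theorem rot_norm {n : ℕ} (hn : 1 ≤ n) {ζ : ℂ} (hζ : ζ ^ n = 1) (p : ℂ × ℂ) : ‖(rot ζ p).1‖ = ‖p.1‖ ∧ ‖(rot ζ p).2‖ = ‖p.2‖ := by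
  unfold rot
  rw [norm_mul, norm_mul, norm_inv, orb_norm hn hζ, inv_one, one_mul, one_mul]
  exact ⟨rfl, rfl⟩

/-- a root of unity near `1` -/
theorem root_isolated {n : ℕ} (hn : 1 ≤ n) : ∃ δ : ℝ, 0 < δ ∧ ∀ ζ : ℂ, ζ ^ n = 1 → ‖ζ - 1‖ < δ → ζ = 1 := by
  have hfin : ({z : ℂ | z ^ n = 1} : Set ℂ).Finite := by
    have h : ({z : ℂ | z ^ n = 1} : Set ℂ) ⊆ ((Polynomial.nthRoots n (1 : ℂ)).toFinset : Set ℂ) := by
      intro z hz
      simp only [Set.mem_ofPred_eq] at hz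
      simp only [Finset.mem_coe, Multiset.mem_toFinset]
      exact (Polynomial.mem_nthRoots (by omega)).2 hz
    exact (Finset.finite_toSet _).subset h
  have h1 : (({z : ℂ | z ^ n = 1} \ {1})ᶜ : Set ℂ) ∈ 𝓝 (1 : ℂ) :=
    (hfin.subset Set.sdiff_subset).isClosed.isOpen_compl.mem_nhds (by simp)
  obtain ⟨δ, hδ, hb⟩ := Metric.mem_nhds_iff.1 h1
  refine ⟨δ, hδ, fun ζ hζ h2 => ?_⟩
  by_contra h3
  exact hb (by rw [mem_ball, dist_eq_norm]; exact h2) ⟨hζ, h3⟩

end Pool.Agent.EG.RL
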