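import Pool.Agent.H14.PP.Defs

/-!
# EG RL Defs: cells of a log surface near a fibre

A log surface near the fibre over `0` of a function `u`, described by charts `s i` on the bidisc of radius `2`, in which `u` is `k x ^ a y ^ b`,
`1 ≤ a`, `b` an integer.  The charts are of two types.

* `ex i = false`: then `b i = 0`; the frame of the 2-forms is `dx / x ∧ dy`; the cell `(i, μ)` is `(t, h) ↦ (μ exp (t / a), h)`.
* `ex i = true`: the curve `y = 0` is removed; the frame of the 2-forms is `dx / x ∧ dy / y`; the cell `(i, μ)` is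
  `(t, h) ↦ (μ exp ((t - b h) / a), exp h)`.  If `1 ≤ b` (a node of the fibre) then the chart with the two coordinates exchanged is also in the family;
  `b = 0`: a point of a horizontal component of the boundary; `b < 0`: a base point, where a component of the fibre over `∞` passes.

Here `k μ ^ a = 1` and `u = exp t`.  `g i t` is the coefficient of the 2-form `α` in the frame; in all cases `α = (g / a) dt ∧ dh` (`phi = g / a`).  The form may depend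
on the choice of the logarithm `t` of `u` (a form on a covering).  The chart is injective up to the rotations `(ζ x, ζ⁻¹ y)`, `ζ ^ orb = 1` (`orb = 1`, or
`ex = true`, `a = b`: quotient singularities at the nodes).
-/

set_option autoImplicit false

open Topology Filter Metric Set

namespace Pool.Agent.EG.RL

open Pool.Agent.H14.PP (jac)

/-- the charts -/
structure Atl (ι Y : Type) where
  /-- the parametrization -/
  s : ι → ℂ × ℂ → Y
  /-- the type of the chart -/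
  ex : ι → Bool
  /-- the first exponent -/
  a : ι → ℕ
  /-- the second exponent -/
  b : ι → ℤ
  /-- the constant -/
  k : ι → ℂ
  /-- the coefficient of the form -/
  g : ι → ℂ → ℂ × ℂ → ℂ

variable {ι Y : Type}

/-- the function `u` in a chart -/
noncomputable def Atl.u (M : Atl ι Y) (i : ι) (p : ℂ × ℂ) : ℂ := M.k i * p.1 ^ M.a i * p.2 ^ M.b i

/-- the frame of the 2-forms in the chart is `dx ∧ dy` divided by this function -/
def Atl.L (M : Atl ι Y) (i : ι) (p : ℂ × ℂ) : ℂ := p.1 * (if M.ex i = true then p.2 else 1)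

/-- the central part of the bidisc -/
def Cen (p : ℂ × ℂ) : Prop := ‖p.1‖ < 1 / 2 ∧ ‖p.2‖ < 1

/-- the rotations of the bidisc -/
noncomputable def rot (ζ : ℂ) (p : ℂ × ℂ) : ℂ × ℂ := (ζ * p.1, ζ⁻¹ * p.2)

/-- `j` is the chart `i` with the coordinates exchanged -/
def Atl.Sw (M : Atl ι Y) (i j : ι) : Prop :=
  M.ex i = true ∧ M.ex j = true ∧ 1 ≤ M.b i ∧ (M.a j : ℤ) = M.b i ∧ M.b j = M.a i ∧ M.k j = M.k i ∧
    ∀ p ∈ ball (0 : ℂ × ℂ) 2, M.L j p ≠ 0 → M.s j p = M.s i p.swap ∧ ∀ t, Complex.exp t = M.u j p → M.g j t p = -M.g i t p.swap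

/-- the change of coordinates `τ` from the chart `j` to the chart `i`, from `q` to `p`, away from the points `y = 0` of the charts with `ex = true` -/
def Atl.Rg (M : Atl ι Y) (η : ℝ) (i j : ι) (p q : ℂ × ℂ) : Prop :=
  ∃ τ : ℂ × ℂ → ℂ × ℂ, τ q = p ∧
    (∀ x ∈ ball q η, AnalyticAt ℂ τ x ∧ τ x ∈ ball p (1 / 4) ∧ (x.1 ≠ 0 → M.s j x = M.s i (τ x) ∧ M.u i (τ x) = M.u j x ∧
      ∀ t, Complex.exp t = M.u j x → M.g j t x * M.L i (τ x) = M.g i t (τ x) * jac τ x * M.L j x)) ∧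
    (M.ex i = true → 1 / 2 ≤ ‖p.2‖) ∧ (M.ex j = true → 1 / 2 ≤ ‖q.2‖) ∧ ‖q.1‖ ≤ η / 4

/-- the log surface near the fibre over `0` -/
structure Model (ι Y : Type) extends Atl ι Y where
  /-- the radius of the disc -/
  ρ : ℝ
  /-- the size of the overlaps -/
  η : ℝ
  /-- the order of the quotient singularity -/
  orb : ι → ℕ
  ρ_pos : 0 < ρ
  ρ_le : ∀ i, ρ ≤ ‖k i‖
  η_pos : 0 < η
  η_le : η ≤ 1 / 4
  a_pos : ∀ i, 1 ≤ a i
  b_ex : ∀ i, ex i = false → b i = 0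
  orb_pos : ∀ i, 1 ≤ orb i
  orb_eq : ∀ i, orb i = 1 ∨ ex i = true
  inj : ∀ i p q, p ∈ ball (0 : ℂ × ℂ) 2 → q ∈ ball (0 : ℂ × ℂ) 2 → toAtl.L i p ≠ 0 → toAtl.L i q ≠ 0 → s i p = s i q →
    ∃ ζ : ℂ, ζ ^ orb i = 1 ∧ q = rot ζ p
  rot_eq : ∀ i (ζ : ℂ), ζ ^ orb i = 1 → ∀ p ∈ ball (0 : ℂ × ℂ) 2, toAtl.L i p ≠ 0 →
    s i (rot ζ p) = s i p ∧ ∀ t, Complex.exp t = toAtl.u i p → g i t (rot ζ p) = g i t p
  g_an : ∀ i, ∀ p ∈ ball (0 : ℂ × ℂ) 2, toAtl.L i p ≠ 0 → ∀ t : ℂ × ℂ → ℂ, AnalyticAt ℂ t p → (∀ᶠ q in 𝓝 p, Complex.exp (t q) = toAtl.u i q) →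
    AnalyticAt ℂ (fun q => g i (t q) q) p
  trans : ∀ i j p q, Cen p → Cen q → s i p = s j q → toAtl.L i p ≠ 0 → toAtl.L j q ≠ 0 → ‖toAtl.u i p‖ < ρ →
    i = j ∨ toAtl.Sw i j ∨ toAtl.Rg η i j p q

/-- the second coordinate as a function of `h` -/
noncomputable def yb (e : Bool) (h : ℂ) : ℂ := if e = true then Complex.exp h else h

/-- the cell `(i, μ)` -/
noncomputable def Atl.X (M : Atl ι Y) (i : ι) (μ t h : ℂ) : ℂ × ℂ :=
  (μ * Complex.exp ((t - M.b i * h) / M.a i), yb (M.ex i) h)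

/-- the density of the form `α / dt` in the cell -/
noncomputable def Atl.phi (M : Atl ι Y) (i : ι) (μ t h : ℂ) : ℂ := M.g i t (M.X i μ t h) / M.a i

/-- its primitive with respect to `h` -/
noncomputable def Atl.P (M : Atl ι Y) (i : ι) (μ t h : ℂ) : ℂ := h * ∫ r in (0 : ℝ)..1, M.phi i μ t (r * h)

/-- a strip which is unbounded to the left -/
def Strip (t₀ : ℂ) (ε : ℝ) : Set ℂ := {t | t.re < t₀.re + ε ∧ |t.im - t₀.im| < ε}

/-- near `t₀` the curve `f` (a function of `t`) is the curve `h` in the cell `(i, μ)` -/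
def Dat (M : Model ι Y) (f : ℂ → Y) (i : ι) (μ : ℂ) (h : ℂ → ℂ) (t₀ : ℂ) : Prop :=
  M.k i * μ ^ M.a i = 1 ∧ AnalyticAt ℂ h t₀ ∧ Cen (M.X i μ t₀ (h t₀)) ∧ ∀ᶠ t in 𝓝 t₀, f t = M.s i (M.X i μ t (h t))

/-- the densities are bounded by `C₀ |u| ^ κ` -/
def Bphi (M : Model ι Y) (C₀ κ : ℝ) : Prop :=
  ∀ i μ t h, M.k i * μ ^ M.a i = 1 → M.X i μ t h ∈ ball (0 : ℂ × ℂ) 2 → ‖Complex.exp t‖ < M.ρ → ‖M.phi i μ t h‖ ≤ C₀ * Real.exp (κ * t.re)

/-- the cells are linked at `t₀`: the difference of the primitives extends to the strip of width `ε` to the left of `t₀`, with linear growth -/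
def LinkQ (M : Model ι Y) (κ : ℝ) (i : ι) (μ : ℂ) (j : ι) (ν : ℂ) (t₀ h₀ h₁ : ℂ) (ε C : ℝ) : Prop :=
  ∃ D : ℂ → ℂ, DifferentiableOn ℂ D (Strip t₀ ε) ∧
    (∀ t ∈ Strip t₀ ε, ‖D t‖ ≤ C * Real.exp (κ * t.re) * (1 + ‖t - t₀‖ + ‖h₀‖ + ‖h₁‖)) ∧
    ∀ hi hj : ℂ → ℂ, AnalyticAt ℂ hi t₀ → AnalyticAt ℂ hj t₀ → hi t₀ = h₀ → hj t₀ = h₁ →
      (∀ᶠ t in 𝓝 t₀, M.s i (M.X i μ t (hi t)) = M.s j (M.X j ν t (hj t))) →
      ∀ᶠ t in 𝓝 t₀, M.P i μ t (hi t) - M.P j ν t (hj t) = D t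

end Pool.Agent.EG.RL
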