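import Pool.Agent.EG.RL.Cell

/-!
# EG RL Sec: a section is locally a curve in a cell

`z = exp t`.  The points `y = 0` of the charts with `ex = true`, `b ≤ 0` (horizontal boundary, base points) are excluded.
-/

set_option autoImplicit false

open Topology Filter Metric Set

namespace Pool.Agent.EG.RL

variable {ι Y : Type}

/-- `p` is not a point of the horizontal boundary -/
def Atl.Ok (M : Atl ι Y) (i : ι) (p : ℂ × ℂ) : Prop := M.ex i = true → M.b i ≤ 0 → p.2 ≠ 0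

/-- `f` is a holomorphic section near `z₀` -/
def Atl.Hol (M : Atl ι Y) (f : ℂ → Y) (z₀ : ℂ) : Prop :=
  ∀ i p, p ∈ ball (0 : ℂ × ℂ) 2 → M.Ok i p → f z₀ = M.s i p →
    ∃ P : ℂ → ℂ × ℂ, AnalyticAt ℂ P z₀ ∧ P z₀ = p ∧ ∀ᶠ z in 𝓝 z₀, f z = M.s i (P z) ∧ M.u i (P z) = z

/-- the point `f z₀` is a central point of some chart -/
def Atl.Cov (M : Atl ι Y) (f : ℂ → Y) (z₀ : ℂ) : Prop := ∃ i p, Cen p ∧ M.Ok i p ∧ f z₀ = M.s i p

theorem cen_open : IsOpen {p : ℂ × ℂ | Cen p} := by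
  unfold Cen
  exact (isOpen_lt continuous_fst.norm continuous_const).inter
    (isOpen_lt continuous_snd.norm continuous_const)

/-- a root of unity near `1` is `1` -/
theorem root_near {a : ℕ} (ha : 1 ≤ a) {ζ : ℂ → ℂ} {t₀ : ℂ} (hc : ContinuousAt ζ t₀) (h1 : ζ t₀ = 1)
    (h : ∀ᶠ t in 𝓝 t₀, ζ t ^ a = 1) : ∀ᶠ t in 𝓝 t₀, ζ t = 1 := by
  have h2 : ContinuousAt (fun t => ∑ j ∈ Finset.range a, ζ t ^ j) t₀ :=
    tendsto_finsetSum _ fun j _ => hc.pow j
  have h3 : ∑ j ∈ Finset.range a, ζ t₀ ^ j ≠ 0 := by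
    simp only [h1, one_pow, Finset.sum_const, Finset.card_range, nsmul_eq_mul, mul_one]
    exact Nat.cast_ne_zero.mpr (by omega)
  filter_upwards [h, h2.eventually_ne h3] with t ht ht2
  have h4 := geom_sum_mul (ζ t) a
  rw [ht, sub_self] at h4
  exact sub_eq_zero.mp ((mul_eq_zero.mp h4).resolve_left ht2)

/-- the coordinate `h` -/
theorem exists_h (e : Bool) {g : ℂ → ℂ} {t₀ : ℂ} (hg : AnalyticAt ℂ g t₀) (hb : e = true → g t₀ ≠ 0) :
    ∃ h : ℂ → ℂ, AnalyticAt ℂ h t₀ ∧ ∀ᶠ t in 𝓝 t₀, yb e (h t) = g t := by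
  cases e with
  | false =>
    exact ⟨g, hg, Eventually.of_forall fun t => yb_false⟩
  | true =>
    have hg0 := hb rfl
    have h1 : AnalyticAt ℂ (fun t => g t / g t₀) t₀ := hg.div analyticAt_const hg0
    have h2 : g t₀ / g t₀ = 1 := div_self hg0
    have h3 : AnalyticAt ℂ (fun t => Complex.log (g t₀) + Complex.log (g t / g t₀)) t₀ := by
      refine analyticAt_const.add (AnalyticAt.clog h1 ?_)
      show g t₀ / g t₀ ∈ Complex.slitPlane
      rw [h2]
      exact Complex.one_mem_slitPlane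
    refine ⟨_, h3, ?_⟩
    have h4 : ∀ᶠ t in 𝓝 t₀, g t ≠ 0 := hg.continuousAt.eventually_ne hg0
    filter_upwards [h4] with t ht
    rw [yb_true, Complex.exp_add, Complex.exp_log hg0, Complex.exp_log (div_ne_zero ht hg0), mul_div_cancel₀ _ hg0]

/-- a curve in the surface is locally a curve in a cell: version for a curve `p` in a chart, `u (p t) = exp t` -/
theorem exists_cell_of (M : Model ι Y) {i : ι} {p : ℂ → ℂ × ℂ} {t₀ : ℂ} (hp : AnalyticAt ℂ p t₀) (hL : M.L i (p t₀) ≠ 0)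
    (hu : ∀ᶠ t in 𝓝 t₀, M.u i (p t) = Complex.exp t) :
    ∃ (μ : ℂ) (h : ℂ → ℂ), M.k i * μ ^ M.a i = 1 ∧ AnalyticAt ℂ h t₀ ∧ ∀ᶠ t in 𝓝 t₀, M.X i μ t (h t) = p t := by
  have ha := M.a_pos i
  have ha0 := a_ne M i
  have hk := k_ne M i
  have hQ1 : AnalyticAt ℂ (fun t => (p t).1) t₀ := AnalyticAt.comp analyticAt_fst hp
  have hQ2 : AnalyticAt ℂ (fun t => (p t).2) t₀ := AnalyticAt.comp analyticAt_snd hp
  have hp1 : (p t₀).1 ≠ 0 := left_ne_zero_of_mul hL
  have hp2 : M.ex i = true → (p t₀).2 ≠ 0 := by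
    intro he
    unfold Atl.L at hL
    rw [if_pos he] at hL
    exact right_ne_zero_of_mul hL
  obtain ⟨h, hh, hhe⟩ := exists_h (M.ex i) hQ2 hp2
  have hhb : ∀ᶠ t in 𝓝 t₀, Complex.exp (M.b i * h t) = (p t).2 ^ M.b i := by
    filter_upwards [hhe] with t ht
    by_cases he : M.ex i = true
    · rw [he, yb_true] at ht
      rw [← ht, Complex.exp_int_mul]
    · rw [M.b_ex i (by simpa using he)]
      simp
  have hu0 := hu.self_of_nhds
  have hpw : ∀ x : ℂ, Complex.exp (x / M.a i) ^ M.a i = Complex.exp x := by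
    intro x
    rw [← Complex.exp_nat_mul, mul_div_cancel₀ _ ha0]
  obtain ⟨μ, hμd⟩ : ∃ μ : ℂ, μ = (p t₀).1 * Complex.exp (-((t₀ - M.b i * h t₀) / M.a i)) := ⟨_, rfl⟩
  have hμa : M.k i * μ ^ M.a i = 1 := by
    rw [hμd, mul_pow, ← neg_div, hpw, neg_sub, Complex.exp_sub, hhb.self_of_nhds]
    have h1 : M.k i * (p t₀).1 ^ M.a i * (p t₀).2 ^ M.b i = Complex.exp t₀ := hu0
    rw [← mul_assoc, mul_div_assoc', h1, div_self (Complex.exp_ne_zero t₀)]
  have hx0 : μ * Complex.exp ((t₀ - M.b i * h t₀) / M.a i) = (p t₀).1 := by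
    rw [hμd, mul_assoc, ← Complex.exp_add, neg_add_cancel, Complex.exp_zero, mul_one]
  have hca : ContinuousAt (fun t => μ * Complex.exp ((t - M.b i * h t) / M.a i)) t₀ :=
    continuousAt_const.mul (ContinuousAt.cexp ((continuousAt_id.sub
      (continuousAt_const.mul hh.continuousAt)).div_const _))
  have hζ : ∀ᶠ t in 𝓝 t₀, μ * Complex.exp ((t - M.b i * h t) / M.a i) / (p t).1 = 1 := by
    refine root_near ha (hca.div hQ1.continuousAt hp1) ?_ ?_
    · show μ * Complex.exp ((t₀ - M.b i * h t₀) / M.a i) / (p t₀).1 = 1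
      rw [hx0, div_self hp1]
    · filter_upwards [hu, hhb] with t h1 h2
      have h3 : M.k i * (p t).1 ^ M.a i * (p t).2 ^ M.b i = Complex.exp t := h1
      have h4 := Complex.exp_ne_zero t
      have h5 : (p t).1 ^ M.a i ≠ 0 := by
        intro h
        rw [h, mul_zero, zero_mul] at h3
        exact h4 h3.symm
      have h6 : (p t).2 ^ M.b i ≠ 0 := by
        intro h
        rw [h, mul_zero] at h3
        exact h4 h3.symm
      have h7 : Complex.exp t / (p t).2 ^ M.b i = M.k i * (p t).1 ^ M.a i :=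
        (div_eq_iff h6).mpr h3.symm
      rw [div_pow, div_eq_one_iff_eq h5, mul_pow, hpw, Complex.exp_sub, h2, h7, mul_left_comm,
        ← mul_assoc, hμa, one_mul]
  refine ⟨μ, h, hμa, hh, ?_⟩
  have h6 : ∀ᶠ t in 𝓝 t₀, (p t).1 ≠ 0 := hQ1.continuousAt.eventually_ne hp1
  filter_upwards [hζ, hhe, h6] with t h1 h2 h3
  exact Prod.ext ((div_eq_one_iff_eq h3).mp h1) h2

theorem exists_dat (M : Model ι Y) {f : ℂ → Y} {t₀ : ℂ} (hf : M.Hol f (Complex.exp t₀)) (hc : M.Cov f (Complex.exp t₀)) :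
    ∃ i μ h, Dat M (fun t => f (Complex.exp t)) i μ h t₀ := by
  obtain ⟨i, p, hp, hok, hfp⟩ := hc
  obtain ⟨P, hPa, hP0, hPe⟩ := hf i p (cen_ball hp) hok hfp
  have hu : M.k i * p.1 ^ M.a i * p.2 ^ M.b i = Complex.exp t₀ := by
    have := hPe.self_of_nhds.2
    rw [hP0] at this
    exact this
  have ha := M.a_pos i
  have hE := Complex.exp_ne_zero t₀
  have hp1 : p.1 ≠ 0 := by
    intro h
    rw [h, zero_pow (by omega), mul_zero, zero_mul] at hu
    exact hE hu.symm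
  have hL : M.L i p ≠ 0 := by
    unfold Atl.L
    split_ifs with he
    · refine mul_ne_zero hp1 ?_
      by_cases hb : M.b i ≤ 0
      · exact hok he hb
      · intro h
        rw [h, zero_zpow _ (by omega), mul_zero] at hu
        exact hE hu.symm
    · rw [mul_one]
      exact hp1
  have hQ : AnalyticAt ℂ (fun t => P (Complex.exp t)) t₀ := hPa.fun_comp (Complex.differentiable_exp.analyticAt t₀)
  have hPt : ∀ᶠ t in 𝓝 t₀, f (Complex.exp t) = M.s i (P (Complex.exp t)) ∧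
      M.u i (P (Complex.exp t)) = Complex.exp t := (Complex.continuous_exp.tendsto t₀).eventually hPe
  obtain ⟨μ, h, hμ, hh, hX⟩ := exists_cell_of M (i := i) hQ (by rw [hP0]; exact hL) (hPt.mono fun t ht => ht.2)
  refine ⟨i, μ, h, hμ, hh, ?_, ?_⟩
  · rw [hX.self_of_nhds, hP0]
    exact hp
  · filter_upwards [hX, hPt] with t h1 h2
    rw [h1]
    exact h2.1

theorem dat_eventually (M : Model ι Y) {f : ℂ → Y} {i : ι} {μ t₀ : ℂ} {h : ℂ → ℂ} (hd : Dat M f i μ h t₀) :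
    ∀ᶠ t in 𝓝 t₀, Dat M f i μ h t := by
  obtain ⟨h1, h2, h3, h4⟩ := hd
  have hc : ContinuousAt (fun t => M.X i μ t (h t)) t₀ := by
    have h5 : ContinuousAt (fun t => (t, h t)) t₀ := continuousAt_id.prodMk h2.continuousAt
    exact ContinuousAt.comp (f := fun t => (t, h t)) (g := fun p : ℂ × ℂ => M.X i μ p.1 p.2)
      (X_an M i μ (t₀, h t₀)).continuousAt h5
  have h5 : ∀ᶠ t in 𝓝 t₀, Cen (M.X i μ t (h t)) := hc.eventually (cen_open.mem_nhds h3)
  filter_upwards [h2.eventually_analyticAt, h5, eventually_eventually_nhds.mpr h4] with t e1 e2 e3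
  exact ⟨h1, e1, e2, e3⟩

end Pool.Agent.EG.RL
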