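import Pool.Agent.EG.RL.PLeft
import Pool.Agent.EG.RL.Sec

/-!
# EG RL End: a section near the fibre over `0`
-/

set_option autoImplicit false

open Topology Filter Metric Set

namespace Pool.Agent.EG.RL

variable {ι Y : Type}

/-- the curve `f (exp t)` is in one cell near `t₁`, and its primitive extends to the left -/
def EndAt (M : Model ι Y) (f : ℂ → Y) (t₁ : ℂ) : Prop :=
  ∃ i μ h, Dat M (fun t => f (Complex.exp t)) i μ h t₁ ∧ Left (fun t => M.P i μ t (h t) / Complex.exp t) t₁

/-- the conclusion from a curve in one cell for all small `exp t` -/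
private theorem End_fin (M : Model ι Y) {C₀ κ : ℝ} (hC₀ : 0 ≤ C₀) (hκ : 0 < κ) (hB : Bphi M C₀ κ) {f : ℂ → Y} {i : ι} {μ : ℂ}
    {P : ℂ → ℂ × ℂ} {h : ℂ → ℂ} {r C : ℝ}
    (hr : 0 < r) (hμ : M.k i * μ ^ M.a i = 1)
    (hP : ∀ z : ℂ, ‖z‖ < r → Cen (P z) ∧ f z = M.s i (P z))
    (hh : ∀ t : ℂ, ‖Complex.exp t‖ < r → AnalyticAt ℂ h t ∧ M.X i μ t (h t) = P (Complex.exp t) ∧
      ‖h t‖ ≤ C * (1 + ‖t‖)) :
    ∃ R : ℝ, ∀ t₁ : ℂ, t₁.re < R → EndAt M f t₁ := by
  refine ⟨Real.log (min r M.ρ) - 1, fun t₁ ht₁ => ⟨i, μ, h, ?_, ?_⟩⟩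
  · have hm : 0 < min r M.ρ := lt_min hr M.ρ_pos
    have h1 : ‖Complex.exp t₁‖ < r := by
      rw [Complex.norm_exp]
      have : Real.exp t₁.re < min r M.ρ := by
        rw [← Real.lt_log_iff_exp_lt hm]
        linarith
      exact this.trans_le (min_le_left _ _)
    refine ⟨hμ, (hh t₁ h1).1, ?_, ?_⟩
    · rw [(hh t₁ h1).2.1]
      exact (hP _ h1).1
    · have h2 : ∀ᶠ t in 𝓝 t₁, ‖Complex.exp t‖ < r :=
        (Complex.continuous_exp.norm.tendsto t₁).eventually (gt_mem_nhds h1)
      filter_upwards [h2] with t ht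
      rw [(hh t ht).2.1]
      exact (hP _ ht).2
  · have hm : 0 < min r M.ρ := lt_min hr M.ρ_pos
    have h1 : ∀ t ∈ Strip t₁ 1, ‖Complex.exp t‖ < r := by
      intro t ht
      rw [Complex.norm_exp]
      have h2 : t.re < t₁.re + 1 := ht.1
      have : Real.exp t.re < min r M.ρ := by
        rw [← Real.lt_log_iff_exp_lt hm]
        linarith
      exact this.trans_le (min_le_left _ _)
    refine P_left M hC₀ hκ hB (ε := 1) (C := C) hμ one_pos ?_ ?_ ?_ ?_
    · have h2 : Real.exp (t₁.re + 1) < min r M.ρ := by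
        rw [← Real.lt_log_iff_exp_lt hm]
        linarith
      exact h2.le.trans (min_le_right _ _)
    · intro t ht
      exact (hh t (h1 t ht)).1.differentiableAt.differentiableWithinAt
    · intro t ht
      rw [(hh t (h1 t ht)).2.1]
      exact cen_ball (hP _ (h1 t ht)).1
    · intro t ht
      exact (hh t (h1 t ht)).2.2

/-- the logarithm of an analytic function near a nonzero value -/
private theorem End_log {g : ℂ → ℂ} (hg : AnalyticAt ℂ g 0) (h0 : g 0 ≠ 0) :
    ∃ L : ℂ → ℂ, ∀ᶠ z in 𝓝 0, AnalyticAt ℂ L z ∧ Complex.exp (L z) = g z ∧ ‖L z‖ ≤ ‖L 0‖ + 1 := by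
  have h1 : AnalyticAt ℂ (fun t => g t / g 0) 0 := hg.div analyticAt_const h0
  have h3 : AnalyticAt ℂ (fun t => Complex.log (g 0) + Complex.log (g t / g 0)) 0 := by
    refine analyticAt_const.add (AnalyticAt.clog h1 ?_)
    show g 0 / g 0 ∈ Complex.slitPlane
    rw [div_self h0]
    exact Complex.one_mem_slitPlane
  refine ⟨fun t => Complex.log (g 0) + Complex.log (g t / g 0), ?_⟩
  have h4 : ∀ᶠ t in 𝓝 (0 : ℂ), g t ≠ 0 := hg.continuousAt.eventually_ne h0
  have h5 : ∀ᶠ t in 𝓝 (0 : ℂ), ‖Complex.log (g 0) + Complex.log (g t / g 0)‖ <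
      ‖Complex.log (g 0) + Complex.log (g 0 / g 0)‖ + 1 :=
    h3.continuousAt.norm.eventually (gt_mem_nhds (lt_add_one _))
  filter_upwards [h3.eventually_analyticAt, h4, h5] with z e1 e2 e3
  refine ⟨e1, ?_, e3.le⟩
  rw [Complex.exp_add, Complex.exp_log h0, Complex.exp_log (div_ne_zero e2 h0), mul_div_cancel₀ _ h0]

/-- a simple zero -/
private theorem End_simple {m : ℕ} (hm : 1 ≤ m) {g c : ℂ → ℂ} (hg : AnalyticAt ℂ g 0) (hc : AnalyticAt ℂ c 0) (h0 : g 0 = 0)
    (he : ∀ᶠ z in 𝓝 (0 : ℂ), c z * g z ^ m = z) : m = 1 ∧ c 0 ≠ 0 := by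
  have d1 := (hg.differentiableAt.hasDerivAt).fun_pow m
  have d3 := (hc.differentiableAt.hasDerivAt).mul d1
  have d4 : HasDerivAt (fun z : ℂ => z) 1 0 := hasDerivAt_id 0
  have d5 : (fun z : ℂ => z) =ᶠ[𝓝 0] (c * fun z => g z ^ m) := by
    filter_upwards [he] with z hz
    exact hz.symm
  have d6 := (d4.congr_of_eventuallyEq d5.symm).unique d3
  rw [h0, zero_pow (show m ≠ 0 by omega)] at d6
  constructor
  · by_contra hne
    rw [zero_pow (show m - 1 ≠ 0 by omega)] at d6
    simp at d6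
  · intro hc0
    rw [hc0] at d6
    simp at d6

theorem exists_end (M : Model ι Y) {C₀ κ : ℝ} (hC₀ : 0 ≤ C₀) (hκ : 0 < κ) (hB : Bphi M C₀ κ) {f : ℂ → Y} (hf : M.Hol f 0)
    (hc : M.Cov f 0) : ∃ R : ℝ, ∀ t₁ : ℂ, t₁.re < R → EndAt M f t₁ := by
  obtain ⟨i, p, hp, hok, hfp⟩ := hc
  obtain ⟨P, hPa, hP0, hPe⟩ := hf i p (cen_ball hp) hok hfp
  have ha := M.a_pos i
  have hk := k_ne M i
  have hP1 : AnalyticAt ℂ (fun z => (P z).1) 0 := AnalyticAt.comp analyticAt_fst hPa
  have hP2 : AnalyticAt ℂ (fun z => (P z).2) 0 := AnalyticAt.comp analyticAt_snd hPa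
  have hu0 : M.k i * p.1 ^ M.a i * p.2 ^ M.b i = 0 := by
    have := hPe.self_of_nhds.2
    rw [hP0] at this
    exact this
  have hcen : ∀ᶠ z in 𝓝 (0 : ℂ), Cen (P z) :=
    hPa.continuousAt.eventually (cen_open.mem_nhds (by
      show Cen (P 0)
      rw [hP0]
      exact hp))
  have hneg : M.b i < 0 → p.2 ≠ 0 := by
    intro hb
    refine hok ?_ hb.le
    by_contra he
    have := M.b_ex i (by simpa using he)
    omega
  by_cases hp1 : p.1 = 0
  · -- `a = 1`
    have hca : AnalyticAt ℂ (fun z => M.k i * (P z).2 ^ M.b i) 0 := by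
      refine analyticAt_const.mul ?_
      by_cases h2 : p.2 = 0
      · have hb : 0 ≤ M.b i := by
          by_contra h3
          exact hneg (by omega) h2
        obtain ⟨m, hm⟩ := Int.eq_ofNat_of_zero_le hb
        rw [hm]
        simp only [zpow_natCast]
        exact hP2.pow m
      · exact hP2.zpow (by rw [hP0]; exact h2)
    obtain ⟨ha1, hc0⟩ := End_simple ha hP1 hca (by rw [hP0]; exact hp1) (by
      filter_upwards [hPe] with z hz
      have h1 : M.k i * (P z).1 ^ M.a i * (P z).2 ^ M.b i = z := hz.2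
      rw [mul_right_comm]
      exact h1)
    have hb : p.2 ^ M.b i ≠ 0 := by
      have := right_ne_zero_of_mul hc0
      rwa [hP0] at this
    have hμ : M.k i * (M.k i)⁻¹ ^ M.a i = 1 := by
      rw [ha1, pow_one, mul_inv_cancel₀ hk]
    -- the coordinate `h`
    obtain ⟨g, hg⟩ : ∃ g : ℂ → ℂ, ∃ C : ℝ, 0 ≤ C ∧ ∀ᶠ z in 𝓝 (0 : ℂ), AnalyticAt ℂ g z ∧
        yb (M.ex i) (g z) = (P z).2 ∧ Complex.exp (M.b i * g z) = (P z).2 ^ M.b i ∧ ‖g z‖ ≤ C := by
      by_cases he : M.ex i = true
      · have hp2 : (P 0).2 ≠ 0 := by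
          rw [hP0]
          by_cases hb0 : M.b i ≤ 0
          · exact hok he hb0
          · intro h
            apply hb
            rw [h, zero_zpow _ (by omega)]
        obtain ⟨L, hL⟩ := End_log hP2 hp2
        refine ⟨L, ‖L 0‖ + 1, by positivity, ?_⟩
        filter_upwards [hL] with z e1
        refine ⟨e1.1, ?_, ?_, e1.2.2⟩
        · rw [he, yb_true]
          exact e1.2.1
        · rw [Complex.exp_int_mul, e1.2.1]
      · refine ⟨fun z => (P z).2, 1, zero_le_one, ?_⟩
        filter_upwards [hP2.eventually_analyticAt, hcen] with z e1 e2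
        have he' : M.ex i = false := by simpa using he
        have hb0 := M.b_ex i he'
        rw [he', hb0]
        refine ⟨e1, yb_false, ?_, e2.2.le⟩
        simp
    obtain ⟨C, hC0, hg⟩ := hg
    obtain ⟨r, hr, hball⟩ := Metric.eventually_nhds_iff_ball.mp (hPe.and (hcen.and hg))
    refine End_fin M hC₀ hκ hB (i := i) (μ := (M.k i)⁻¹) (P := P) (h := fun t => g (Complex.exp t)) (C := C) hr hμ
      (fun z hz => ?_) (fun t ht => ?_)
    · have h1 := hball z (by rwa [mem_ball_zero_iff])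
      exact ⟨h1.2.1, h1.1.1⟩
    · obtain ⟨h1, h2, h3, h4, h5, h6⟩ := hball (Complex.exp t) (by rwa [mem_ball_zero_iff])
      refine ⟨h3.fun_comp (Complex.differentiable_exp.analyticAt t), Prod.ext ?_ h4, ?_⟩
      · show (M.k i)⁻¹ * Complex.exp ((t - M.b i * g (Complex.exp t)) / M.a i) = (P (Complex.exp t)).1
        have h7 : M.k i * (P (Complex.exp t)).1 ^ M.a i * (P (Complex.exp t)).2 ^ M.b i = Complex.exp t := h1.2
        have h8 : (P (Complex.exp t)).2 ^ M.b i ≠ 0 := by
          intro h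
          rw [h, mul_zero] at h7
          exact Complex.exp_ne_zero t h7.symm
        have h9 : Complex.exp t / (P (Complex.exp t)).2 ^ M.b i = M.k i * (P (Complex.exp t)).1 ^ M.a i :=
          (div_eq_iff h8).mpr h7.symm
        rw [ha1] at h9 ⊢
        rw [Nat.cast_one, div_one, Complex.exp_sub, h5, h9, pow_one, inv_mul_cancel_left₀ hk]
      · have := norm_nonneg t
        nlinarith
  · -- `b = 1`
    have hb0 : p.2 ^ M.b i = 0 := by
      rcases mul_eq_zero.mp hu0 with h | h
      · exact absurd h (mul_ne_zero hk (pow_ne_zero _ hp1))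
      · exact h
    have hbne : M.b i ≠ 0 := by
      intro h
      rw [h, zpow_zero] at hb0
      exact one_ne_zero hb0
    have hp2 : p.2 = 0 := by
      by_contra h
      exact zpow_ne_zero _ h hb0
    have hbpos : 0 < M.b i := by
      rcases lt_trichotomy (M.b i) 0 with h | h | h
      · exact absurd hp2 (hneg h)
      · exact absurd h hbne
      · exact h
    have hex : M.ex i = true := by
      by_contra he
      have := M.b_ex i (by simpa using he)
      omega
    obtain ⟨m, hm⟩ := Int.eq_ofNat_of_zero_le hbpos.le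
    obtain ⟨hm1, -⟩ := End_simple (m := m) (by omega) hP2 (c := fun z => M.k i * (P z).1 ^ M.a i)
      (analyticAt_const.mul (hP1.pow _)) (by rw [hP0]; exact hp2) (by
      filter_upwards [hPe] with z hz
      have h1 : M.k i * (P z).1 ^ M.a i * (P z).2 ^ M.b i = z := hz.2
      rw [hm, zpow_natCast] at h1
      exact h1)
    have hb1 : M.b i = 1 := by omega
    have hp1' : (P 0).1 ≠ 0 := by
      rw [hP0]
      exact hp1
    have ha0 := a_ne M i
    obtain ⟨L, hL⟩ := End_log hP1 hp1'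
    obtain ⟨c, hc⟩ : ∃ c : ℂ, Complex.exp c = M.k i := ⟨Complex.log (M.k i), Complex.exp_log hk⟩
    have hμ : M.k i * (Complex.exp (-c / M.a i)) ^ M.a i = 1 := by
      rw [← Complex.exp_nat_mul, mul_div_cancel₀ _ ha0, Complex.exp_neg, hc, mul_inv_cancel₀ hk]
    obtain ⟨r, hr, hball⟩ := Metric.eventually_nhds_iff_ball.mp (hPe.and (hcen.and hL))
    refine End_fin M hC₀ hκ hB (i := i) (μ := Complex.exp (-c / M.a i)) (P := P)
      (h := fun t => t - c - M.a i * L (Complex.exp t)) (C := 1 + ‖c‖ + M.a i * (‖L 0‖ + 1)) hr hμ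
      (fun z hz => ?_) (fun t ht => ?_)
    · have h1 := hball z (by rwa [mem_ball_zero_iff])
      exact ⟨h1.2.1, h1.1.1⟩
    · obtain ⟨h1, h2, h3, h4, h5⟩ := hball (Complex.exp t) (by rwa [mem_ball_zero_iff])
      have h7 : M.k i * (P (Complex.exp t)).1 ^ M.a i * (P (Complex.exp t)).2 ^ M.b i = Complex.exp t := h1.2
      rw [hb1, zpow_one] at h7
      have h8 : (P (Complex.exp t)).1 ^ M.a i ≠ 0 := by
        intro h
        rw [h, mul_zero, zero_mul] at h7
        exact Complex.exp_ne_zero t h7.symm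
      refine ⟨?_, Prod.ext ?_ ?_, ?_⟩
      · exact (analyticAt_id.sub analyticAt_const).sub
          (analyticAt_const.mul (h3.fun_comp (Complex.differentiable_exp.analyticAt t)))
      · show Complex.exp (-c / M.a i) * Complex.exp ((t - M.b i * (t - c - M.a i * L (Complex.exp t))) / M.a i) =
          (P (Complex.exp t)).1
        rw [hb1, Int.cast_one, one_mul, ← Complex.exp_add, ← h4]
        congr 1
        field_simp
        ring
      · show yb (M.ex i) (t - c - M.a i * L (Complex.exp t)) = (P (Complex.exp t)).2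
        rw [hex, yb_true, Complex.exp_sub, Complex.exp_sub, Complex.exp_nat_mul, h4, hc, div_div,
          div_eq_iff (mul_ne_zero hk h8)]
        exact h7.symm.trans (mul_comm _ _)
      · have e1 : ‖t - c - M.a i * L (Complex.exp t)‖ ≤ ‖t‖ + ‖c‖ + M.a i * (‖L 0‖ + 1) := by
          refine (norm_sub_le _ _).trans (add_le_add (norm_sub_le _ _) ?_)
          rw [norm_mul, Complex.norm_natCast]
          exact mul_le_mul_of_nonneg_left h5 (Nat.cast_nonneg _)
        refine e1.trans ?_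
        have e2 := norm_nonneg t
        have e3 := norm_nonneg c
        have e4 : 0 ≤ (M.a i : ℝ) * (‖L 0‖ + 1) := by positivity
        nlinarith

end Pool.Agent.EG.RL
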