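import Pool.Agent.EG.RL.LeftA

/-!
# EG RL Glue: extension to the disc

Proof (helper41):
glue: for each y in [-pi, pi] strip with L_y, eps_y, and L_y = A(exp t) for |t - (log r + i y)| < eps_y (shrink).  Finitely many y_k cover [-pi,pi]; R := r exp(min eps_k / 2).
B z := L_k (t) for any k, t with exp t = z, t in Strip(log r + i y_k, eps_k): independent of the choice (identity theorem: L_k(t) and L_l(t + 2 pi i n) agree near the line Re t = log r, where
both are A(exp t), on the convex intersection of the two strips).  B is holomorphic on 0 < |z| < R, z B(z) -> 0: removable singularity (Complex.differentiableOn_update_limUnder_of_isLittleO),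
B = A near |z| = r.
-/

set_option autoImplicit false

open Topology Filter Metric Set

namespace Pool.Agent.EG.RL

private theorem Glue_isOpen_Strip (t₀ : ℂ) (ε : ℝ) : IsOpen (Strip t₀ ε) :=
  (isOpen_lt Complex.continuous_re continuous_const).inter
    (isOpen_lt (Complex.continuous_im.sub continuous_const).abs continuous_const)

private theorem Glue_Strip_mono {l y y' ε ε' : ℝ} (hε : ε ≤ ε') (hy : |y - y'| ≤ ε' - ε) :
    Strip ⟨l, y⟩ ε ⊆ Strip ⟨l, y'⟩ ε' := by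
  rintro t ⟨h1, h2⟩
  refine ⟨lt_of_lt_of_le h1 (add_le_add_right hε _), ?_⟩
  have h3 : t.im - y' = (t.im - y) + (y - y') := by ring
  change |t.im - y'| < ε'
  rw [h3]
  have h4 : |t.im - y| < ε := h2
  exact lt_of_le_of_lt (abs_add_le _ _) (by linarith)

/-- the uniform version -/
private theorem Glue_unif {A : ℂ → ℂ} {r : ℝ}
    (h : ∀ t₀ : ℂ, t₀.re = Real.log r → ∃ L : ℂ → ℂ, Left L t₀ ∧ ∀ᶠ t in 𝓝 t₀, L t = A (Complex.exp t))
    (s : Set ℝ) (hs : IsCompact s) :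
    ∃ (ε : ℝ) (Lf : ℝ → ℂ → ℂ), 0 < ε ∧
      (∀ y ∈ s, DifferentiableOn ℂ (Lf y) (Strip ⟨Real.log r, y⟩ ε)) ∧
      (∀ y ∈ s, ∀ t ∈ Strip ⟨Real.log r, y⟩ ε, Real.log r - ε < t.re → Lf y t = A (Complex.exp t)) ∧
      ∀ δ : ℝ, 0 < δ → ∃ R : ℝ, ∀ y ∈ s, ∀ t ∈ Strip ⟨Real.log r, y⟩ ε, t.re < R →
        ‖Lf y t * Complex.exp t‖ < δ := by
  classical
  refine hs.induction_on (p := fun s => ∃ (ε : ℝ) (Lf : ℝ → ℂ → ℂ), 0 < ε ∧
      (∀ y ∈ s, DifferentiableOn ℂ (Lf y) (Strip ⟨Real.log r, y⟩ ε)) ∧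
      (∀ y ∈ s, ∀ t ∈ Strip ⟨Real.log r, y⟩ ε, Real.log r - ε < t.re → Lf y t = A (Complex.exp t)) ∧
      ∀ δ : ℝ, 0 < δ → ∃ R : ℝ, ∀ y ∈ s, ∀ t ∈ Strip ⟨Real.log r, y⟩ ε, t.re < R →
        ‖Lf y t * Complex.exp t‖ < δ) ?_ ?_ ?_ ?_
  · exact ⟨1, fun _ _ => 0, one_pos, fun y hy => absurd hy (Set.notMem_empty y),
      fun y hy => absurd hy (Set.notMem_empty y), fun δ _ => ⟨0, fun y hy =>
        absurd hy (Set.notMem_empty y)⟩⟩
  · rintro s t hst ⟨ε, Lf, h0, h1, h2, h3⟩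
    refine ⟨ε, Lf, h0, fun y hy => h1 y (hst hy), fun y hy => h2 y (hst hy), fun δ hδ => ?_⟩
    obtain ⟨R, hR⟩ := h3 δ hδ
    exact ⟨R, fun y hy => hR y (hst hy)⟩
  · rintro s t ⟨ε, Lf, h0, h1, h2, h3⟩ ⟨ε', Lf', h0', h1', h2', h3'⟩
    have hm1 : ∀ y, Strip ⟨Real.log r, y⟩ (min ε ε') ⊆ Strip ⟨Real.log r, y⟩ ε := fun y =>
      Glue_Strip_mono (min_le_left _ _) (by rw [sub_self, abs_zero]; linarith [min_le_left ε ε'])
    have hm2 : ∀ y, Strip ⟨Real.log r, y⟩ (min ε ε') ⊆ Strip ⟨Real.log r, y⟩ ε' := fun y =>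
      Glue_Strip_mono (min_le_right _ _) (by rw [sub_self, abs_zero]; linarith [min_le_right ε ε'])
    refine ⟨min ε ε', fun y => if y ∈ s then Lf y else Lf' y, lt_min h0 h0', ?_, ?_, ?_⟩
    · intro y hy
      by_cases hys : y ∈ s
      · simp only [if_pos hys]
        exact (h1 y hys).mono (hm1 y)
      · simp only [if_neg hys]
        exact (h1' y (hy.resolve_left hys)).mono (hm2 y)
    · intro y hy u hu hre
      by_cases hys : y ∈ s
      · simp only [if_pos hys]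
        exact h2 y hys u (hm1 y hu) (by linarith [min_le_left ε ε'])
      · simp only [if_neg hys]
        exact h2' y (hy.resolve_left hys) u (hm2 y hu) (by linarith [min_le_right ε ε'])
    · intro δ hδ
      obtain ⟨R, hR⟩ := h3 δ hδ
      obtain ⟨R', hR'⟩ := h3' δ hδ
      refine ⟨min R R', fun y hy u hu hre => ?_⟩
      by_cases hys : y ∈ s
      · simp only [if_pos hys]
        exact hR y hys u (hm1 y hu) (lt_of_lt_of_le hre (min_le_left _ _))
      · simp only [if_neg hys]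
        exact hR' y (hy.resolve_left hys) u (hm2 y hu) (lt_of_lt_of_le hre (min_le_right _ _))
  · intro x _
    obtain ⟨L, ⟨ε, hε, hd, hg⟩, hA⟩ := h ⟨Real.log r, x⟩ rfl
    obtain ⟨ε', hε', hA'⟩ := Metric.eventually_nhds_iff.1 hA
    have hm0 : 0 < min (ε / 2) (ε' / 4) := lt_min (by linarith) (by linarith)
    have hma : min (ε / 2) (ε' / 4) ≤ ε / 2 := min_le_left _ _
    have hmb : min (ε / 2) (ε' / 4) ≤ ε' / 4 := min_le_right _ _
    refine ⟨Metric.ball x (min (ε / 2) (ε' / 4)), mem_nhdsWithin_of_mem_nhds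
      (Metric.ball_mem_nhds x hm0), min (ε / 2) (ε' / 4), fun _ => L, hm0, ?_, ?_, ?_⟩
    · intro y hy
      rw [Metric.mem_ball, Real.dist_eq] at hy
      exact hd.mono (Glue_Strip_mono (by linarith) (by linarith))
    · intro y hy t ht hre
      rw [Metric.mem_ball, Real.dist_eq] at hy
      apply hA'
      have ht1 : t.re < Real.log r + min (ε / 2) (ε' / 4) := ht.1
      have ht2 : |t.im - y| < min (ε / 2) (ε' / 4) := ht.2
      rw [Complex.dist_eq]
      have h1 : |(t - (⟨Real.log r, x⟩ : ℂ)).re| ≤ ε' / 4 := by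
        rw [Complex.sub_re, abs_le]
        constructor
        · change -(ε' / 4) ≤ t.re - Real.log r
          linarith
        · change t.re - Real.log r ≤ ε' / 4
          linarith
      have h2 : |(t - (⟨Real.log r, x⟩ : ℂ)).im| ≤ ε' / 4 + ε' / 4 := by
        rw [Complex.sub_im]
        have h3 : t.im - x = (t.im - y) + (y - x) := by ring
        change |t.im - x| ≤ _
        rw [h3]
        exact (abs_add_le _ _).trans (by linarith)
      exact lt_of_le_of_lt (Complex.norm_le_abs_re_add_abs_im _) (by linarith)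
    · intro δ hδ
      obtain ⟨R, hR⟩ := hg δ hδ
      refine ⟨R, fun y hy t ht hre => hR t ?_ hre⟩
      rw [Metric.mem_ball, Real.dist_eq] at hy
      exact Glue_Strip_mono (by linarith) (by linarith) ht

/-- independence of the choices -/
private theorem Glue_indep {A L₁ L₂ : ℂ → ℂ} {l y y' ε : ℝ} (hε : 0 < ε)
    (hd₁ : DifferentiableOn ℂ L₁ (Strip ⟨l, y⟩ ε))
    (hA₁ : ∀ t ∈ Strip ⟨l, y⟩ ε, l - ε < t.re → L₁ t = A (Complex.exp t))
    (hd₂ : DifferentiableOn ℂ L₂ (Strip ⟨l, y'⟩ ε))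
    (hA₂ : ∀ t ∈ Strip ⟨l, y'⟩ ε, l - ε < t.re → L₂ t = A (Complex.exp t))
    (n : ℤ) (t : ℂ) (ht : t ∈ Strip ⟨l, y⟩ ε) (ht' : t + n * (2 * Real.pi * Complex.I) ∈ Strip ⟨l, y'⟩ ε) :
    L₁ t = L₂ (t + n * (2 * Real.pi * Complex.I)) := by
  set c : ℂ := n * (2 * Real.pi * Complex.I) with hc
  have hcre : c.re = 0 := by rw [hc]; simp
  have hexp : ∀ u : ℂ, Complex.exp (u + c) = Complex.exp u := by
    intro u
    rw [Complex.exp_add, hc, Complex.exp_int_mul_two_pi_mul_I, mul_one]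
  let U : Set ℂ := {u | u ∈ Strip ⟨l, y⟩ ε ∧ u + c ∈ Strip ⟨l, y'⟩ ε}
  have hUo : IsOpen U := (Glue_isOpen_Strip _ _).inter
    ((Glue_isOpen_Strip ⟨l, y'⟩ ε).preimage (continuous_id.add continuous_const))
  have hUe : U = {u : ℂ | u.re < l + ε} ∩ ({u : ℂ | max (y - ε) (y' - ε - c.im) < u.im} ∩
      {u : ℂ | u.im < min (y + ε) (y' + ε - c.im)}) := by
    ext u
    simp only [U, Strip, Set.mem_ofPred_eq, Set.mem_inter_iff, Complex.add_re, Complex.add_im, hcre,
      add_zero, abs_lt, max_lt_iff, lt_min_iff]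
    constructor
    · rintro ⟨⟨h1, h2, h3⟩, ⟨_, h5, h6⟩⟩
      exact ⟨h1, ⟨by linarith, by linarith⟩, by linarith, by linarith⟩
    · rintro ⟨h1, ⟨h2, h3⟩, h4, h5⟩
      exact ⟨⟨h1, by linarith, by linarith⟩, h1, by linarith, by linarith⟩
  have hUc : IsPreconnected U := by
    rw [hUe]
    exact ((convex_halfSpace_re_lt _).inter ((convex_halfSpace_im_gt _).inter
      (convex_halfSpace_im_lt _))).isPreconnected
  have ha₁ : AnalyticOnNhd ℂ L₁ U :=
    (hd₁.mono fun u hu => hu.1).analyticOnNhd hUo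
  have ha₂ : AnalyticOnNhd ℂ (fun u => L₂ (u + c)) U := by
    refine DifferentiableOn.analyticOnNhd ?_ hUo
    exact hd₂.comp (differentiableOn_id.add_const c) fun u hu => hu.2
  have htU : t ∈ U := ⟨ht, ht'⟩
  let t₁ : ℂ := ⟨l, t.im⟩
  have ht₁ : t₁ ∈ U := by
    refine ⟨⟨?_, ht.2⟩, ⟨?_, ?_⟩⟩
    · change l < l + ε
      linarith
    · rw [Complex.add_re, hcre]
      change l + 0 < l + ε
      linarith
    · have h5 := ht'.2
      rw [Complex.add_im] at h5 ⊢
      exact h5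
  have hev : L₁ =ᶠ[𝓝 t₁] fun u => L₂ (u + c) := by
    have h6 : U ∩ {u : ℂ | l - ε < u.re} ∈ 𝓝 t₁ := by
      refine (hUo.inter (isOpen_lt continuous_const Complex.continuous_re)).mem_nhds ⟨ht₁, ?_⟩
      change l - ε < l
      linarith
    filter_upwards [h6] with u hu
    have h7 : l - ε < (u + c).re := by
      rw [Complex.add_re, hcre, add_zero]
      exact hu.2
    rw [hA₁ u hu.1.1 hu.2, hA₂ (u + c) hu.1.2 h7, hexp]
  exact ha₁.eqOn_of_preconnected_of_eventuallyEq ha₂ hUc ht₁ hev htU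

theorem glue {A : ℂ → ℂ} {r : ℝ} (hr : 0 < r)
    (h : ∀ t₀ : ℂ, t₀.re = Real.log r → ∃ L : ℂ → ℂ, Left L t₀ ∧ ∀ᶠ t in 𝓝 t₀, L t = A (Complex.exp t)) :
    ∃ (B : ℂ → ℂ) (R : ℝ), r < R ∧ DifferentiableOn ℂ B (ball 0 R) ∧ ∀ z : ℂ, ‖z‖ = r → ∀ᶠ w in 𝓝 z, B w = A w := by
  classical
  obtain ⟨ε, Lf, hε, hd, hA, hg⟩ := Glue_unif h (Set.Icc (-Real.pi) Real.pi) isCompact_Icc
  have harg : ∀ z : ℂ, Complex.arg z ∈ Set.Icc (-Real.pi) Real.pi := fun z =>
    ⟨(Complex.neg_pi_lt_arg z).le, Complex.arg_le_pi z⟩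
  have hlog : ∀ z : ℂ, z ≠ 0 → ‖z‖ < r * Real.exp ε →
      Complex.log z ∈ Strip ⟨Real.log r, Complex.arg z⟩ ε := by
    intro z hz hzR
    refine ⟨?_, ?_⟩
    · rw [Complex.log_re]
      change Real.log ‖z‖ < Real.log r + ε
      have h1 : Real.log (r * Real.exp ε) = Real.log r + ε := by
        rw [Real.log_mul hr.ne' (Real.exp_pos ε).ne', Real.log_exp]
      rw [← h1]
      exact Real.log_lt_log (norm_pos_iff.2 hz) hzR
    · rw [Complex.log_im]
      change |Complex.arg z - Complex.arg z| < ε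
      rw [sub_self, abs_zero]
      exact hε
  let B : ℂ → ℂ := fun z => Lf (Complex.arg z) (Complex.log z)
  -- near a point `z₀ ≠ 0`
  have hloc : ∀ z₀ : ℂ, z₀ ≠ 0 → ‖z₀‖ < r * Real.exp ε → DifferentiableAt ℂ B z₀ := by
    intro z₀ hz₀ hzR
    let ℓ : ℂ → ℂ := fun w => Complex.log (w / z₀) + Complex.log z₀
    have hℓd : DifferentiableAt ℂ ℓ z₀ := by
      refine DifferentiableAt.add_const _ ?_
      refine DifferentiableAt.clog (differentiableAt_id.div_const z₀) ?_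
      rw [div_self hz₀]
      exact Complex.one_mem_slitPlane
    have hℓ0 : ℓ z₀ = Complex.log z₀ := by
      change Complex.log (z₀ / z₀) + Complex.log z₀ = Complex.log z₀
      rw [div_self hz₀, Complex.log_one, zero_add]
    have hmem : ℓ z₀ ∈ Strip ⟨Real.log r, Complex.arg z₀⟩ ε := by
      rw [hℓ0]
      exact hlog z₀ hz₀ hzR
    have hLd : DifferentiableAt ℂ (Lf (Complex.arg z₀)) (ℓ z₀) :=
      (hd _ (harg z₀)).differentiableAt ((Glue_isOpen_Strip _ _).mem_nhds hmem)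
    have hev : B =ᶠ[𝓝 z₀] fun w => Lf (Complex.arg z₀) (ℓ w) := by
      have e1 : ∀ᶠ w in 𝓝 z₀, ℓ w ∈ Strip ⟨Real.log r, Complex.arg z₀⟩ ε :=
        hℓd.continuousAt.eventually ((Glue_isOpen_Strip _ _).mem_nhds hmem)
      have e2 : ∀ᶠ w in 𝓝 z₀, w ≠ 0 := isOpen_ne.mem_nhds hz₀
      have e3 : ∀ᶠ w in 𝓝 z₀, ‖w‖ < r * Real.exp ε :=
        continuous_norm.continuousAt.eventually (gt_mem_nhds hzR)
      filter_upwards [e1, e2, e3] with w hw1 hw2 hw3
      have hexpℓ : Complex.exp (ℓ w) = w := by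
        change Complex.exp (Complex.log (w / z₀) + Complex.log z₀) = w
        rw [Complex.exp_add, Complex.exp_log (div_ne_zero hw2 hz₀), Complex.exp_log hz₀,
          div_mul_cancel₀ _ hz₀]
      have hexpl : Complex.exp (ℓ w) = Complex.exp (Complex.log w) := by
        rw [hexpℓ, Complex.exp_log hw2]
      obtain ⟨n, hn⟩ := Complex.exp_eq_exp_iff_exists_int.1 hexpl
      have hw4 := hlog w hw2 hw3
      have h5 : Complex.log w + n * (2 * Real.pi * Complex.I) ∈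
          Strip ⟨Real.log r, Complex.arg z₀⟩ ε := by
        rw [← hn]
        exact hw1
      have h6 := Glue_indep hε (hd _ (harg w)) (hA _ (harg w)) (hd _ (harg z₀)) (hA _ (harg z₀)) n
        (Complex.log w) hw4 h5
      change Lf (Complex.arg w) (Complex.log w) = Lf (Complex.arg z₀) (ℓ w)
      rw [h6, ← hn]
    refine DifferentiableAt.congr_of_eventuallyEq ?_ hev
    exact hLd.comp z₀ hℓd
  have hR : r < r * Real.exp ε := by
    have : 1 < Real.exp ε := Real.one_lt_exp_iff.2 hε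
    nlinarith
  have hd' : DifferentiableOn ℂ B (ball 0 (r * Real.exp ε) \ {0}) := by
    rintro z ⟨hz1, hz2⟩
    exact (hloc z hz2 (mem_ball_zero_iff.1 hz1)).differentiableWithinAt
  -- growth at `0`
  have hR0 : 0 < r * Real.exp ε := mul_pos hr (Real.exp_pos ε)
  have ho : (fun z => B z - B 0) =o[𝓝[≠] (0 : ℂ)] fun z => (z - 0)⁻¹ := by
    rw [Asymptotics.isLittleO_iff]
    intro c hc
    obtain ⟨R₁, hR₁⟩ := hg (c / 2) (by linarith)
    have e1 : ∀ᶠ z in 𝓝[≠] (0 : ℂ), z ≠ 0 := eventually_mem_nhdsWithin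
    have e2 : ∀ᶠ z in 𝓝[≠] (0 : ℂ), ‖z‖ < min (r * Real.exp ε) (Real.exp R₁) := by
      refine mem_nhdsWithin_of_mem_nhds ?_
      exact continuous_norm.continuousAt.eventually
        (gt_mem_nhds (show ‖(0 : ℂ)‖ < min (r * Real.exp ε) (Real.exp R₁) from by
          rw [norm_zero]; exact lt_min hR0 (Real.exp_pos _)))
    have e3 : ∀ᶠ z in 𝓝[≠] (0 : ℂ), ‖z‖ * ‖B 0‖ < c / 2 := by
      refine mem_nhdsWithin_of_mem_nhds ?_
      have h7 : Continuous fun z : ℂ => ‖z‖ * ‖B 0‖ := continuous_norm.mul continuous_const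
      exact h7.continuousAt.eventually (gt_mem_nhds (show ‖(0 : ℂ)‖ * ‖B 0‖ < c / 2 from by
        rw [norm_zero, zero_mul]; linarith))
    filter_upwards [e1, e2, e3] with z hz1 hz2 hz3
    have hz4 := hlog z hz1 (lt_of_lt_of_le hz2 (min_le_left _ _))
    have hz5 : (Complex.log z).re < R₁ := by
      rw [Complex.log_re]
      have := Real.log_lt_log (norm_pos_iff.2 hz1) (lt_of_lt_of_le hz2 (min_le_right _ _))
      rwa [Real.log_exp] at this
    have hz6 := hR₁ _ (harg z) _ hz4 hz5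
    rw [Complex.exp_log hz1] at hz6
    have hz7 : ‖B z‖ * ‖z‖ < c / 2 := by
      rw [← norm_mul]
      exact hz6
    rw [sub_zero, norm_inv]
    have hzp : 0 < ‖z‖ := norm_pos_iff.2 hz1
    rw [← div_eq_mul_inv, le_div_iff₀ hzp]
    calc ‖B z - B 0‖ * ‖z‖ ≤ (‖B z‖ + ‖B 0‖) * ‖z‖ :=
          mul_le_mul_of_nonneg_right (norm_sub_le _ _) hzp.le
      _ = ‖B z‖ * ‖z‖ + ‖z‖ * ‖B 0‖ := by ring
      _ ≤ c := by linarith
  have hfin := Complex.differentiableOn_update_limUnder_of_isLittleO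
    (Metric.ball_mem_nhds (0 : ℂ) hR0) hd' ho
  refine ⟨Function.update B 0 (limUnder (𝓝[≠] 0) B), r * Real.exp ε, hR, hfin, ?_⟩
  intro z hz
  have hz0 : z ≠ 0 := norm_pos_iff.1 (by rw [hz]; exact hr)
  have hlo : r * Real.exp (-ε) < r := by
    have : Real.exp (-ε) < 1 := by
      rw [← Real.exp_zero]
      exact Real.exp_lt_exp.2 (by linarith)
    nlinarith
  have e1 : ∀ᶠ w in 𝓝 z, w ≠ 0 := isOpen_ne.mem_nhds hz0
  have e2 : ∀ᶠ w in 𝓝 z, ‖w‖ < r * Real.exp ε :=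
    continuous_norm.continuousAt.eventually (gt_mem_nhds (show ‖z‖ < r * Real.exp ε from hz.trans_lt hR))
  have e3 : ∀ᶠ w in 𝓝 z, r * Real.exp (-ε) < ‖w‖ :=
    continuous_norm.continuousAt.eventually (lt_mem_nhds (show r * Real.exp (-ε) < ‖z‖ from hlo.trans_eq hz.symm))
  filter_upwards [e1, e2, e3] with w hw1 hw2 hw3
  rw [Function.update_of_ne hw1]
  change Lf (Complex.arg w) (Complex.log w) = A w
  have hw4 : Real.log r - ε < (Complex.log w).re := by
    rw [Complex.log_re]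
    have h8 : Real.log (r * Real.exp (-ε)) = Real.log r - ε := by
      rw [Real.log_mul hr.ne' (Real.exp_pos _).ne', Real.log_exp]
      ring
    rw [← h8]
    exact Real.log_lt_log (mul_pos hr (Real.exp_pos _)) hw3
  rw [hA _ (harg w) _ (hlog w hw1 hw2) hw4, Complex.exp_log hw1]

end Pool.Agent.EG.RL
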