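import Pool.Agent.EG.RL.Defs

/-!
# EG RL LeftA: functions which extend to the left

Proof (helper41):
add/neg/sub: smaller of the two eps (Strip is monotone), R := min, delta/2.  left_glue: eps' small with [t1, t2] +- eps' (rectangle) in ball c delta and eps' <= eps;
L' t := if t.re < t1.re then L t else F t.  On {Re t < t1.re + eps', |Im t - y| < eps'} L' = L (identity theorem on the convex rectangle |Re t - t1.re| < eps', |Im t - y| < eps':
L = F there, AnalyticOnNhd.eqOn_of_preconnected_of_eventuallyEq); on {Re t > t1.re - eps', ..., Re t < t2.re + eps'} L' = F; both are open and cover Strip t2 eps'.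
-/

set_option autoImplicit false

open Topology Filter Metric Set

namespace Pool.Agent.EG.RL

/-- `M` is holomorphic on a strip to the left of `t₀`, and `M t * exp t → 0` -/
def Left (M : ℂ → ℂ) (t₀ : ℂ) : Prop :=
  ∃ ε : ℝ, 0 < ε ∧ DifferentiableOn ℂ M (Strip t₀ ε) ∧
    ∀ δ : ℝ, 0 < δ → ∃ R : ℝ, ∀ t ∈ Strip t₀ ε, t.re < R → ‖M t * Complex.exp t‖ < δ

private theorem leftA_mono {t₀ : ℂ} {ε ε' : ℝ} (h : ε' ≤ ε) : Strip t₀ ε' ⊆ Strip t₀ ε :=
  fun _ ht => ⟨ht.1.trans_le (by linarith), ht.2.trans_le h⟩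

private theorem leftA_open (t₀ : ℂ) (ε : ℝ) : IsOpen (Strip t₀ ε) := by
  have h1 : IsOpen {t : ℂ | t.re < t₀.re + ε} := isOpen_lt Complex.continuous_re continuous_const
  have h2 : IsOpen {t : ℂ | |t.im - t₀.im| < ε} :=
    isOpen_lt (Complex.continuous_im.sub continuous_const).abs continuous_const
  exact h1.inter h2

theorem Left.add {L₁ L₂ : ℂ → ℂ} {t₀ : ℂ} (h₁ : Left L₁ t₀) (h₂ : Left L₂ t₀) : Left (fun t => L₁ t + L₂ t) t₀ := by
  obtain ⟨ε₁, hε₁, hd₁, hb₁⟩ := h₁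
  obtain ⟨ε₂, hε₂, hd₂, hb₂⟩ := h₂
  refine ⟨min ε₁ ε₂, lt_min hε₁ hε₂, (hd₁.mono (leftA_mono (min_le_left _ _))).add
    (hd₂.mono (leftA_mono (min_le_right _ _))), fun δ hδ => ?_⟩
  obtain ⟨R₁, hR₁⟩ := hb₁ (δ / 2) (by linarith)
  obtain ⟨R₂, hR₂⟩ := hb₂ (δ / 2) (by linarith)
  refine ⟨min R₁ R₂, fun t ht htR => ?_⟩
  have h1 := hR₁ t (leftA_mono (min_le_left _ _) ht) (htR.trans_le (min_le_left _ _))
  have h2 := hR₂ t (leftA_mono (min_le_right _ _) ht) (htR.trans_le (min_le_right _ _))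
  rw [add_mul]
  calc ‖L₁ t * Complex.exp t + L₂ t * Complex.exp t‖ ≤ ‖L₁ t * Complex.exp t‖ + ‖L₂ t * Complex.exp t‖ := norm_add_le _ _
    _ < δ := by linarith

theorem Left.neg {L₁ : ℂ → ℂ} {t₀ : ℂ} (h₁ : Left L₁ t₀) : Left (fun t => -L₁ t) t₀ := by
  obtain ⟨ε₁, hε₁, hd₁, hb₁⟩ := h₁
  refine ⟨ε₁, hε₁, hd₁.neg, fun δ hδ => ?_⟩
  obtain ⟨R₁, hR₁⟩ := hb₁ δ hδ
  refine ⟨R₁, fun t ht htR => ?_⟩
  rw [neg_mul, norm_neg]
  exact hR₁ t ht htR

theorem Left.sub {L₁ L₂ : ℂ → ℂ} {t₀ : ℂ} (h₁ : Left L₁ t₀) (h₂ : Left L₂ t₀) : Left (fun t => L₁ t - L₂ t) t₀ := by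
  simpa only [sub_eq_add_neg] using h₁.add h₂.neg

private theorem leftA_rect {t₁ t₂ c t : ℂ} {δ ε : ℝ} (him : t₂.im = t₁.im) (h₁ : ‖t₁ - c‖ + 2 * ε ≤ δ)
    (h₂ : ‖t₂ - c‖ + 2 * ε ≤ δ) (ht1 : t₁.re - ε < t.re) (ht2 : t.re < t₂.re + ε)
    (ht3 : |t.im - t₁.im| < ε) (hre : t₁.re ≤ t₂.re) : t ∈ ball c δ := by
  rw [mem_ball, dist_eq_norm]
  have hε : 0 < ε := (abs_nonneg _).trans_lt ht3
  set x : ℝ := max t₁.re (min t₂.re t.re) with hx
  have hx1 : t₁.re ≤ x := le_max_left _ _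
  have hx2 : x ≤ t₂.re := max_le hre (min_le_left _ _)
  have hxt : |t.re - x| ≤ ε := by
    rw [abs_le]
    constructor
    · have : x ≤ max t₁.re t.re := max_le_max le_rfl (min_le_right _ _)
      have h5 : max t₁.re t.re ≤ t.re + ε := max_le (by linarith) (by linarith)
      linarith
    · have : min t₂.re t.re ≤ x := le_max_right _ _
      have h5 : t.re - ε ≤ min t₂.re t.re := le_min (by linarith) (by linarith)
      linarith
  set s : ℂ := ⟨x, t₁.im⟩ with hs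
  have hst : ‖t - s‖ < 2 * ε := by
    have h5 := Complex.norm_le_abs_re_add_abs_im (t - s)
    have h6 : |(t - s).re| ≤ ε := by simpa [hs] using hxt
    have h7 : |(t - s).im| < ε := by simpa [hs] using ht3
    linarith
  have hsc : ‖s - c‖ ≤ max ‖t₁ - c‖ ‖t₂ - c‖ := by
    have hsq : ∀ w : ℂ, ‖w - c‖ ^ 2 = (w.re - c.re) ^ 2 + (w.im - c.im) ^ 2 := by
      intro w
      rw [← Complex.normSq_eq_norm_sq, Complex.normSq_apply]
      simp only [Complex.sub_re, Complex.sub_im]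
      ring
    rcases le_total c.re x with h5 | h5
    · refine le_max_of_le_right ?_
      refine (sq_le_sq₀ (norm_nonneg _) (norm_nonneg _)).1 ?_
      rw [hsq, hsq, him]
      simp only [hs]
      nlinarith
    · refine le_max_of_le_left ?_
      refine (sq_le_sq₀ (norm_nonneg _) (norm_nonneg _)).1 ?_
      rw [hsq, hsq]
      simp only [hs]
      nlinarith
  have h5 : ‖t - c‖ ≤ ‖t - s‖ + ‖s - c‖ := by
    have := norm_add_le (t - s) (s - c)
    rwa [sub_add_sub_cancel] at this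
  have h6 : max ‖t₁ - c‖ ‖t₂ - c‖ ≤ δ - 2 * ε := max_le (by linarith) (by linarith)
  linarith

/-- `L` extends to the left of `t₁`, `F` is holomorphic on a disc which contains `t₁` and `t₂`, and `L = F` near `t₁` -/
theorem left_glue {L F : ℂ → ℂ} {t₁ t₂ c : ℂ} {δ : ℝ} (hL : Left L t₁) (him : t₂.im = t₁.im) (hre : t₁.re ≤ t₂.re)
    (hF : DifferentiableOn ℂ F (ball c δ)) (h₁ : t₁ ∈ ball c δ) (h₂ : t₂ ∈ ball c δ) (heq : ∀ᶠ t in 𝓝 t₁, L t = F t) :
    ∃ L' : ℂ → ℂ, Left L' t₂ ∧ ∀ᶠ t in 𝓝 t₂, L' t = F t := by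
  classical
  obtain ⟨ε, hε, hLd, hLb⟩ := hL
  rw [mem_ball, dist_eq_norm] at h₁ h₂
  obtain ⟨ε', hε', hεε, hε1, hε2⟩ : ∃ ε' : ℝ, 0 < ε' ∧ ε' ≤ ε ∧ ‖t₁ - c‖ + 2 * ε' ≤ δ ∧ ‖t₂ - c‖ + 2 * ε' ≤ δ := by
    refine ⟨min ε (min ((δ - ‖t₁ - c‖) / 2) ((δ - ‖t₂ - c‖) / 2)), lt_min hε (lt_min (by linarith) (by linarith)),
      min_le_left _ _, ?_, ?_⟩
    · have : min ε (min ((δ - ‖t₁ - c‖) / 2) ((δ - ‖t₂ - c‖) / 2)) ≤ (δ - ‖t₁ - c‖) / 2 :=
        (min_le_right _ _).trans (min_le_left _ _)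
      linarith
    · have : min ε (min ((δ - ‖t₁ - c‖) / 2) ((δ - ‖t₂ - c‖) / 2)) ≤ (δ - ‖t₂ - c‖) / 2 :=
        (min_le_right _ _).trans (min_le_right _ _)
      linarith
  -- the identity theorem near `t₁`
  have hLF : ∀ t : ℂ, t₁.re - ε' < t.re → t.re < t₁.re + ε' → |t.im - t₁.im| < ε' → L t = F t := by
    set U : Set ℂ := Complex.re ⁻¹' Ioo (t₁.re - ε') (t₁.re + ε') ∩ Complex.im ⁻¹' Ioo (t₁.im - ε') (t₁.im + ε') with hU
    have hUo : IsOpen U := (isOpen_Ioo.preimage Complex.continuous_re).inter (isOpen_Ioo.preimage Complex.continuous_im)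
    have hUc : Convex ℝ U :=
      ((convex_Ioo _ _).linear_preimage Complex.reLm).inter ((convex_Ioo _ _).linear_preimage Complex.imLm)
    have h1 : DifferentiableOn ℂ L U := by
      refine hLd.mono fun t ht => ⟨?_, ?_⟩
      · have := ht.1.2
        linarith
      · have h2 := ht.2.1
        have h3 := ht.2.2
        rw [abs_lt]
        constructor <;> linarith
    have h2 : DifferentiableOn ℂ F U := by
      refine hF.mono fun t ht => leftA_rect him hε1 hε2 ht.1.1 (ht.1.2.trans_le (by linarith)) ?_ hre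
      have h2 := ht.2.1
      have h3 := ht.2.2
      rw [abs_lt]
      constructor <;> linarith
    have h3 : EqOn L F U := (h1.analyticOnNhd hUo).eqOn_of_preconnected_of_eventuallyEq (h2.analyticOnNhd hUo)
      hUc.isPreconnected ⟨⟨by linarith, by linarith⟩, ⟨by linarith, by linarith⟩⟩ heq
    intro t h4 h5 h6
    rw [abs_lt] at h6
    exact h3 ⟨⟨h4, h5⟩, ⟨by linarith, by linarith⟩⟩
  set L' : ℂ → ℂ := fun t => if t.re < t₁.re then L t else F t with hL'
  have hright : ∀ t : ℂ, t₁.re ≤ t.re → t.re < t₂.re + ε' → |t.im - t₁.im| < ε' → ∀ᶠ w in 𝓝 t, L' w = F w := by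
    intro t h4 h5 h6
    have e1 : ∀ᶠ w in 𝓝 t, t₁.re - ε' < w.re :=
      Complex.continuous_re.continuousAt.eventually (lt_mem_nhds (by linarith))
    have e3 : ∀ᶠ w in 𝓝 t, |w.im - t₁.im| < ε' :=
      (Complex.continuous_im.sub continuous_const).abs.continuousAt.eventually (gt_mem_nhds h6)
    filter_upwards [e1, e3] with w w1 w3
    by_cases hw : w.re < t₁.re
    · simp only [hL', if_pos hw]
      exact hLF w w1 (by linarith) w3
    · simp only [hL', if_neg hw]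
  refine ⟨L', ⟨ε', hε', ?_, ?_⟩, hright t₂ hre (by linarith) (by rw [him, sub_self, abs_zero]; exact hε')⟩
  · intro t ht
    have ht1 := ht.1
    have ht2 : |t.im - t₁.im| < ε' := by
      have := ht.2
      rwa [him] at this
    refine DifferentiableAt.differentiableWithinAt ?_
    by_cases hw : t.re < t₁.re
    · have e1 : ∀ᶠ w in 𝓝 t, L' w = L w := by
        filter_upwards [Complex.continuous_re.continuousAt.eventually (gt_mem_nhds hw)] with w hw'
        simp only [hL', if_pos hw']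
      have h3 : DifferentiableAt ℂ L t :=
        (hLd t ⟨by linarith, ht2.trans_le hεε⟩).differentiableAt ((leftA_open t₁ ε).mem_nhds ⟨by linarith, ht2.trans_le hεε⟩)
      exact h3.congr_of_eventuallyEq e1
    · push Not at hw
      have hb : t ∈ ball c δ := leftA_rect him hε1 hε2 (by linarith) ht1 ht2 hre
      exact ((hF t hb).differentiableAt (isOpen_ball.mem_nhds hb)).congr_of_eventuallyEq (hright t hw ht1 ht2)
  · intro d hd
    obtain ⟨R, hR⟩ := hLb d hd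
    refine ⟨min R t₁.re, fun t ht htR => ?_⟩
    have h3 : t.re < t₁.re := htR.trans_le (min_le_right _ _)
    have ht2 : |t.im - t₁.im| < ε' := by
      have := ht.2
      rwa [him] at this
    simp only [hL', if_pos h3]
    exact hR t ⟨by linarith, ht2.trans_le hεε⟩ (htR.trans_le (min_le_left _ _))

end Pool.Agent.EG.RL
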