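import Pool.Agent.EG.RL.Prim

/-!
# EG RL LinkH: cells are linked if the change of coordinates extends to the left
-/

set_option autoImplicit false

open Topology Filter Metric Set

namespace Pool.Agent.EG.RL

open Pool.Agent.H14.PP (jac)

variable {ι Y : Type}

private theorem LinkH_jac_comp {σ τ : ℂ × ℂ → ℂ × ℂ} {p : ℂ × ℂ} (hτ : DifferentiableAt ℂ τ (σ p)) (hσ : DifferentiableAt ℂ σ p) :
    jac (fun q => τ (σ q)) p = jac τ (σ p) * jac σ p := by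
  have h1 : fderiv ℂ (fun q => τ (σ q)) p = (fderiv ℂ τ (σ p)).comp (fderiv ℂ σ p) := fderiv_comp p hτ hσ
  have key : ∀ (A : ℂ × ℂ →L[ℂ] ℂ × ℂ) (v : ℂ × ℂ), A v = (v.1 * (A (1, 0)).1 + v.2 * (A (0, 1)).1, v.1 * (A (1, 0)).2 + v.2 * (A (0, 1)).2) := by
    intro A v
    have hv : v = v.1 • (1, 0) + v.2 • ((0, 1) : ℂ × ℂ) := by
      ext <;> simp
    conv_lhs => rw [hv, map_add, map_smul, map_smul]
    ext <;> simp
  unfold jac
  rw [h1]
  simp only [ContinuousLinearMap.comp_apply]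
  rw [key (fderiv ℂ τ (σ p)) (fderiv ℂ σ p (1, 0)), key (fderiv ℂ τ (σ p)) (fderiv ℂ σ p (0, 1))]
  ring

private theorem LinkH_jac_G {H : ℂ → ℂ → ℂ} {t h : ℂ} (hH : DifferentiableAt ℂ (fun p : ℂ × ℂ => H p.1 p.2) (t, h)) :
    jac (fun p : ℂ × ℂ => (p.1, H p.1 p.2)) (t, h) = deriv (fun h => H t h) h := by
  have h1 : HasFDerivAt (fun p : ℂ × ℂ => (p.1, H p.1 p.2))
      ((ContinuousLinearMap.fst ℂ ℂ ℂ).prod (fderiv ℂ (fun p : ℂ × ℂ => H p.1 p.2) (t, h))) (t, h) :=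
    hasFDerivAt_fst.prodMk hH.hasFDerivAt
  have h2 : HasDerivAt (fun h => H t h) (fderiv ℂ (fun p : ℂ × ℂ => H p.1 p.2) (t, h) (0, 1)) h := by
    have h3 : HasDerivAt (fun h : ℂ => ((t, h) : ℂ × ℂ)) (0, 1) h := (hasDerivAt_const h t).prodMk (hasDerivAt_id h)
    exact hH.hasFDerivAt.comp_hasDerivAt h h3
  unfold jac
  rw [h1.fderiv, h2.deriv]
  simp

private theorem LinkH_exp {t t₀ : ℂ} {ε ρ : ℝ} (he : Real.exp (t₀.re + ε) ≤ ρ) (ht : t ∈ Strip t₀ ε) : ‖Complex.exp t‖ < ρ := by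
  rw [Complex.norm_exp]
  exact (Real.exp_lt_exp.2 ht.1).trans_le he

private theorem LinkH_open (t₀ : ℂ) (ε : ℝ) : IsOpen (Strip t₀ ε) := by
  have h1 : IsOpen {t : ℂ | t.re < t₀.re + ε} := isOpen_lt Complex.continuous_re continuous_const
  have h2 : IsOpen {t : ℂ | |t.im - t₀.im| < ε} := isOpen_lt ((Complex.continuous_im.sub continuous_const).abs) continuous_const
  exact h1.inter h2

private theorem LinkH_mem (t₀ : ℂ) {ε : ℝ} (hε : 0 < ε) : t₀ ∈ Strip t₀ ε := by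
  refine ⟨by linarith, ?_⟩
  rw [sub_self, abs_zero]
  exact hε

theorem link_of (M : Model ι Y) {C₀ κ : ℝ} (hC₀ : 0 ≤ C₀) (hB : Bphi M C₀ κ) {i j : ι} {μ ν t₀ h₀ h₁ : ℂ} {ε : ℝ} {H : ℂ → ℂ → ℂ}
    {τ : ℂ × ℂ → ℂ × ℂ} (hμ : M.k i * μ ^ M.a i = 1) (hν : M.k j * ν ^ M.a j = 1) (hε : 0 < ε) (he : Real.exp (t₀.re + ε) ≤ M.ρ)
    (hH : ∀ t ∈ Strip t₀ ε, ∀ h ∈ ball h₁ ε, AnalyticAt ℂ (fun p : ℂ × ℂ => H p.1 p.2) (t, h))
    (hH₀ : H t₀ h₁ = h₀) (hC : ∀ t ∈ Strip t₀ ε, ‖H t h₁‖ ≤ 2 * (1 + ‖t - t₀‖ + ‖h₀‖))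
    (hX : ∀ t ∈ Strip t₀ ε, ∀ h ∈ ball h₁ ε, M.X j ν t h ∈ ball (0 : ℂ × ℂ) 2 ∧ τ (M.X j ν t h) ∈ ball (0 : ℂ × ℂ) 2 ∧
      AnalyticAt ℂ τ (M.X j ν t h) ∧ M.s j (M.X j ν t h) = M.s i (τ (M.X j ν t h)) ∧
      M.g j t (M.X j ν t h) * M.L i (τ (M.X j ν t h)) = M.g i t (τ (M.X j ν t h)) * jac τ (M.X j ν t h) * M.L j (M.X j ν t h) ∧
      M.X i μ t (H t h) = τ (M.X j ν t h)) :
    LinkQ M κ i μ j ν t₀ h₀ h₁ ε (2 * C₀) := by
  have hopen := LinkH_open t₀ ε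
  have ht₀ := LinkH_mem t₀ hε
  have hh₁ : h₁ ∈ ball h₁ ε := mem_ball_self hε
  -- the derivative with respect to `h`
  have hder : ∀ t ∈ Strip t₀ ε, ∀ h ∈ ball h₁ ε, HasDerivAt (fun h => M.P i μ t (H t h) - M.P j ν t h) 0 h := by
    intro t ht h hh
    obtain ⟨hb1, hb2, hτ, -, hw, hXH⟩ := hX t ht h hh
    have hexp := LinkH_exp he ht
    have hHa := hH t ht h hh
    have hHd : DifferentiableAt ℂ (fun p : ℂ × ℂ => H p.1 p.2) (t, h) := hHa.differentiableAt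
    have hHh : HasDerivAt (fun h => H t h) (deriv (fun h => H t h) h) h := by
      have h3 : DifferentiableAt ℂ (fun h : ℂ => ((t, h) : ℂ × ℂ)) h := (differentiableAt_const t).prodMk differentiableAt_id
      have h4 : DifferentiableAt ℂ (fun h => H t h) h :=
        DifferentiableAt.comp (f := fun h : ℂ => ((t, h) : ℂ × ℂ)) (g := fun p : ℂ × ℂ => H p.1 p.2) h hHd h3
      exact h4.hasDerivAt
    have hPi : HasDerivAt (fun h => M.P i μ t h) (M.phi i μ t (H t h)) (H t h) := by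
      refine P_deriv M hμ hexp ?_
      rw [hXH]
      exact hb2
    have hPj : HasDerivAt (fun h => M.P j ν t h) (M.phi j ν t h) h := P_deriv M hν hexp hb1
    have hcomp : HasDerivAt (fun h => M.P i μ t (H t h)) (M.phi i μ t (H t h) * deriv (fun h => H t h) h) h := hPi.comp h hHh
    have hsub := hcomp.sub hPj
    -- the chain rule for the Jacobians
    have hG : DifferentiableAt ℂ (fun p : ℂ × ℂ => (p.1, H p.1 p.2)) (t, h) := differentiableAt_fst.prodMk hHd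
    have hXi : DifferentiableAt ℂ (fun p : ℂ × ℂ => M.X i μ p.1 p.2) ((fun p : ℂ × ℂ => (p.1, H p.1 p.2)) (t, h)) :=
      (X_an M i μ _).differentiableAt
    have hXj : DifferentiableAt ℂ (fun p : ℂ × ℂ => M.X j ν p.1 p.2) (t, h) := (X_an M j ν _).differentiableAt
    have e1 : jac (fun q : ℂ × ℂ => (fun p : ℂ × ℂ => M.X i μ p.1 p.2) ((fun p : ℂ × ℂ => (p.1, H p.1 p.2)) q)) (t, h) =
        jac (fun p : ℂ × ℂ => M.X i μ p.1 p.2) (t, H t h) * jac (fun p : ℂ × ℂ => (p.1, H p.1 p.2)) (t, h) :=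
      LinkH_jac_comp hXi hG
    have e2 : jac (fun q : ℂ × ℂ => τ ((fun p : ℂ × ℂ => M.X j ν p.1 p.2) q)) (t, h) =
        jac τ (M.X j ν t h) * jac (fun p : ℂ × ℂ => M.X j ν p.1 p.2) (t, h) :=
      LinkH_jac_comp hτ.differentiableAt hXj
    have e3 : (fun q : ℂ × ℂ => (fun p : ℂ × ℂ => M.X i μ p.1 p.2) ((fun p : ℂ × ℂ => (p.1, H p.1 p.2)) q)) =ᶠ[𝓝 (t, h)]
        (fun q : ℂ × ℂ => τ ((fun p : ℂ × ℂ => M.X j ν p.1 p.2) q)) := by
      have hn : Strip t₀ ε ×ˢ ball h₁ ε ∈ 𝓝 ((t, h) : ℂ × ℂ) := prod_mem_nhds (hopen.mem_nhds ht) (isOpen_ball.mem_nhds hh)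
      filter_upwards [hn] with q hq
      exact (hX q.1 hq.1 q.2 hq.2).2.2.2.2.2
    have e4 : jac (fun q : ℂ × ℂ => (fun p : ℂ × ℂ => M.X i μ p.1 p.2) ((fun p : ℂ × ℂ => (p.1, H p.1 p.2)) q)) (t, h) =
        jac (fun q : ℂ × ℂ => τ ((fun p : ℂ × ℂ => M.X j ν p.1 p.2) q)) (t, h) := by
      unfold jac
      rw [e3.fderiv_eq]
    rw [e1, e2, LinkH_jac_G hHd, jac_X, jac_X] at e4
    have hzero : M.phi i μ t (H t h) * deriv (fun h => H t h) h - M.phi j ν t h = 0 := by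
      unfold Atl.phi
      simp only at e4
      have hL := L_X_ne M hμ t (H t h)
      rw [hXH] at e4 hL ⊢
      have hai := a_ne M i
      have haj := a_ne M j
      field_simp at e4
      rw [div_mul_eq_mul_div, sub_eq_zero, div_eq_div_iff hai haj]
      refine mul_left_cancel₀ hL ?_
      linear_combination (M.g i t (τ (M.X j ν t h))) * e4 - M.a i * hw
    rw [hzero] at hsub
    exact hsub
  have hconst : ∀ t ∈ Strip t₀ ε, ∀ h ∈ ball h₁ ε, M.P i μ t (H t h) - M.P j ν t h = M.P i μ t (H t h₁) - M.P j ν t h₁ := by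
    intro t ht h hh
    exact isOpen_ball.is_const_of_deriv_eq_zero (convex_ball h₁ ε).isPreconnected
      (fun x hx => (hder t ht x hx).differentiableAt.differentiableWithinAt) (fun x hx => (hder t ht x hx).deriv) hh hh₁
  refine ⟨fun t => M.P i μ t (H t h₁) - M.P j ν t h₁, ?_, ?_, ?_⟩
  · intro t ht
    obtain ⟨hb1, hb2, -, -, -, hXH⟩ := hX t ht h₁ hh₁
    have hexp := LinkH_exp he ht
    have h1 : AnalyticAt ℂ (fun p : ℂ × ℂ => H p.1 p.2) (t, h₁) := hH t ht h₁ hh₁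
    have h3 : AnalyticAt ℂ (fun t : ℂ => ((t, h₁) : ℂ × ℂ)) t := analyticAt_id.prod analyticAt_const
    have h4 : AnalyticAt ℂ (fun t => H t h₁) t :=
      AnalyticAt.fun_comp (f := fun t : ℂ => ((t, h₁) : ℂ × ℂ)) (g := fun p : ℂ × ℂ => H p.1 p.2) h1 h3
    exact ((P_an M hμ hexp h4 (by rw [hXH]; exact hb2)).sub
      (P_an M hν hexp (analyticAt_const (v := h₁)) hb1)).differentiableAt.differentiableWithinAt
  · intro t ht
    obtain ⟨hb1, hb2, -, -, -, hXH⟩ := hX t ht h₁ hh₁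
    have hexp := LinkH_exp he ht
    have h1 : ‖M.P i μ t (H t h₁)‖ ≤ C₀ * Real.exp (κ * t.re) * ‖H t h₁‖ := P_le hB hμ (by rw [hXH]; exact hb2) hexp
    have h2 : ‖M.P j ν t h₁‖ ≤ C₀ * Real.exp (κ * t.re) * ‖h₁‖ := P_le hB hν hb1 hexp
    have h0 : 0 ≤ C₀ * Real.exp (κ * t.re) := mul_nonneg hC₀ (Real.exp_pos _).le
    have h3 := mul_le_mul_of_nonneg_left (hC t ht) h0
    have h4 := norm_sub_le (M.P i μ t (H t h₁)) (M.P j ν t h₁)
    have h5 : 0 ≤ C₀ * Real.exp (κ * t.re) * ‖h₁‖ := mul_nonneg h0 (norm_nonneg _)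
    nlinarith
  · intro hi hj hia hja hi0 hj0 hs
    have hinj := yb_inj (M.ex i) h₀
    obtain ⟨d, hd, hroot⟩ := root_isolated (M.orb_pos i)
    obtain ⟨δ, hδ, hexpd⟩ : ∃ δ : ℝ, 0 < δ ∧ ∀ w : ℂ, ‖w‖ < 2 * δ → ‖Complex.exp w - 1‖ < d := by
      have h1 : ContinuousAt (fun w : ℂ => ‖Complex.exp w - 1‖) 0 := by fun_prop
      have h2 : ∀ᶠ w in 𝓝 (0 : ℂ), ‖Complex.exp w - 1‖ < d :=
        h1.eventually_lt continuousAt_const (by simpa using hd)
      obtain ⟨δ, hδ, h3⟩ := Metric.eventually_nhds_iff.1 h2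
      refine ⟨δ / 2, by positivity, fun w hw => h3 ?_⟩
      rw [dist_zero_right]
      linarith
    have hX0 : M.X i μ t₀ h₀ ∈ ball (0 : ℂ × ℂ) 2 := by
      obtain ⟨-, hb2, -, -, -, hXH⟩ := hX t₀ ht₀ h₁ hh₁
      rw [hH₀] at hXH
      rw [hXH]
      exact hb2
    have c1 : ContinuousAt (fun t => M.X i μ t (hi t)) t₀ := by
      have h1 : ContinuousAt (fun p : ℂ × ℂ => M.X i μ p.1 p.2) (t₀, hi t₀) := (X_an M i μ _).continuousAt
      exact ContinuousAt.comp (f := fun t : ℂ => ((t, hi t) : ℂ × ℂ)) (g := fun p : ℂ × ℂ => M.X i μ p.1 p.2) h1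
        (continuousAt_id.prodMk hia.continuousAt)
    have c2 : ContinuousAt (fun t => H t (hj t)) t₀ := by
      have h1 : ContinuousAt (fun p : ℂ × ℂ => H p.1 p.2) (t₀, hj t₀) := by
        rw [hj0]
        exact (hH t₀ ht₀ h₁ hh₁).continuousAt
      exact ContinuousAt.comp (f := fun t : ℂ => ((t, hj t) : ℂ × ℂ)) (g := fun p : ℂ × ℂ => H p.1 p.2) h1
        (continuousAt_id.prodMk hja.continuousAt)
    have v1 : ∀ᶠ t in 𝓝 t₀, M.X i μ t (hi t) ∈ ball (0 : ℂ × ℂ) 2 := by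
      refine c1.eventually_mem (isOpen_ball.mem_nhds ?_)
      rw [hi0]
      exact hX0
    have v2 : ∀ᶠ t in 𝓝 t₀, H t (hj t) ∈ ball h₀ (min 1 δ) := by
      refine c2.eventually_mem (isOpen_ball.mem_nhds ?_)
      rw [hj0, hH₀]
      exact mem_ball_self (lt_min one_pos hδ)
    have v3 : ∀ᶠ t in 𝓝 t₀, hi t ∈ ball h₀ (min 1 δ) := by
      refine hia.continuousAt.eventually_mem (isOpen_ball.mem_nhds ?_)
      rw [hi0]
      exact mem_ball_self (lt_min one_pos hδ)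
    have v4 : ∀ᶠ t in 𝓝 t₀, hj t ∈ ball h₁ ε := by
      refine hja.continuousAt.eventually_mem (isOpen_ball.mem_nhds ?_)
      rw [hj0]
      exact hh₁
    have v5 : ∀ᶠ t in 𝓝 t₀, t ∈ Strip t₀ ε := hopen.mem_nhds ht₀
    filter_upwards [v1, v2, v3, v4, v5, hs] with t w1 w2 w3 w4 w5 w6
    obtain ⟨-, hb2, -, hsj, -, hXH⟩ := hX t w5 (hj t) w4
    have e1 : M.s i (M.X i μ t (hi t)) = M.s i (M.X i μ t (H t (hj t))) := by
      rw [w6, hsj, hXH]
    have hb3 : M.X i μ t (H t (hj t)) ∈ ball (0 : ℂ × ℂ) 2 := by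
      rw [hXH]
      exact hb2
    obtain ⟨ζ, hζ, e2⟩ := M.inj i _ _ w1 hb3 (L_X_ne M hμ _ _) (L_X_ne M hμ _ _) e1
    have hζ1 : ζ = 1 := by
      rcases M.orb_eq i with ho | he
      · rw [ho, pow_one] at hζ
        exact hζ
      · refine hroot ζ hζ ?_
        have e3 : yb (M.ex i) (H t (hj t)) = ζ⁻¹ * yb (M.ex i) (hi t) := congrArg Prod.snd e2
        rw [he, yb_true, yb_true] at e3
        have hζ0 := orb_ne_zero (M.orb_pos i) hζ
        have e5 : ζ = Complex.exp (hi t - H t (hj t)) := by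
          rw [Complex.exp_sub, e3]
          field_simp
        rw [e5]
        refine hexpd _ ?_
        have e6 : ‖hi t - h₀‖ < δ := by
          rw [← dist_eq_norm]
          exact (mem_ball.1 w3).trans_le (min_le_right _ _)
        have e7 : ‖H t (hj t) - h₀‖ < δ := by
          rw [← dist_eq_norm]
          exact (mem_ball.1 w2).trans_le (min_le_right _ _)
        calc ‖hi t - H t (hj t)‖ = ‖(hi t - h₀) - (H t (hj t) - h₀)‖ := by ring_nf
          _ ≤ ‖hi t - h₀‖ + ‖H t (hj t) - h₀‖ := norm_sub_le _ _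
          _ < 2 * δ := by linarith
    rw [hζ1, rot_one] at e2
    have e3 : yb (M.ex i) (hi t) = yb (M.ex i) (H t (hj t)) := congrArg Prod.snd e2.symm
    have e4 : hi t = H t (hj t) := hinj _ (ball_subset_ball (min_le_left _ _) w3) _ (ball_subset_ball (min_le_left _ _) w2) e3
    rw [e4]
    exact hconst t w5 (hj t) w4

end Pool.Agent.EG.RL
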