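import Pool.Agent.EG.RL.LinkH

/-!
# EG RL LinkS: two cells in the same chart, and in exchanged charts
-/

set_option autoImplicit false

open Topology Filter Metric Set

namespace Pool.Agent.EG.RL

open Pool.Agent.H14.PP (jac)

variable {ι Y : Type}

theorem exp_half_le : Real.exp (1 / 2) ≤ 2 := by
  have h := Real.add_one_le_exp (-(1 / 2 : ℝ))
  rw [Real.exp_neg] at h
  have hp := Real.exp_pos (1 / 2 : ℝ)
  have h2 : (1 / 2 : ℝ) ≤ (Real.exp (1 / 2))⁻¹ := by linarith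
  have h3 := mul_le_mul_of_nonneg_right h2 hp.le
  rw [inv_mul_cancel₀ hp.ne'] at h3
  linarith

/-- near a central point the cell stays in the bidisc of radius `2` -/
theorem X_near (M : Model ι Y) (i : ι) {μ t₀ h₁ t h : ℂ} {ε : ℝ} (hc : Cen (M.X i μ t₀ h₁))
    (hε : ε * (1 + |(M.b i : ℝ)|) ≤ 1 / 2) (ht : t ∈ Strip t₀ ε) (hh : h ∈ ball h₁ ε) :
    M.X i μ t h ∈ ball (0 : ℂ × ℂ) 2 := by
  have hε0 : 0 < ε := pos_of_mem_ball hh
  have hb0 : (0 : ℝ) ≤ |(M.b i : ℝ)| := abs_nonneg _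
  have ha1 : (1 : ℝ) ≤ M.a i := by exact_mod_cast M.a_pos i
  have hε1 : ε ≤ 1 / 2 := by nlinarith
  have h1 : t.re - t₀.re < ε := by have := ht.1; linarith
  have h2 : ‖h - h₁‖ < ε := by rwa [← dist_eq_norm]
  have h3 : |h.re - h₁.re| < ε := by
    have := Complex.abs_re_le_norm (h - h₁)
    rw [Complex.sub_re] at this
    linarith
  rw [mem_bi]
  constructor
  · have e1 : ∀ t h : ℂ, ‖(M.X i μ t h).1‖ = ‖μ‖ * Real.exp ((t.re - M.b i * h.re) / M.a i) := by
      intro t h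
      rw [X_norm, mul_assoc, ← Real.exp_add]
      congr 2
      ring
    have hc1 := hc.1
    rw [e1] at hc1 ⊢
    have e2 : (t.re - M.b i * h.re) / M.a i =
        (t₀.re - M.b i * h₁.re) / M.a i + ((t.re - t₀.re) - M.b i * (h.re - h₁.re)) / M.a i := by ring
    rw [e2, Real.exp_add, ← mul_assoc]
    have h4 : ((t.re - t₀.re) - M.b i * (h.re - h₁.re)) / M.a i ≤ 1 / 2 := by
      rw [div_le_iff₀ (by linarith)]
      have : -(M.b i * (h.re - h₁.re)) ≤ |(M.b i : ℝ)| * ε := by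
        have h5 : |(M.b i : ℝ) * (h.re - h₁.re)| ≤ |(M.b i : ℝ)| * ε := by
          rw [abs_mul]
          exact mul_le_mul_of_nonneg_left h3.le hb0
        have h6 := neg_abs_le ((M.b i : ℝ) * (h.re - h₁.re))
        linarith
      nlinarith
    have h5 : Real.exp (((t.re - t₀.re) - M.b i * (h.re - h₁.re)) / M.a i) ≤ 2 :=
      (Real.exp_le_exp.2 h4).trans exp_half_le
    have h6 : 0 ≤ ‖μ‖ * Real.exp ((t₀.re - M.b i * h₁.re) / M.a i) := by positivity
    calc _ ≤ ‖μ‖ * Real.exp ((t₀.re - M.b i * h₁.re) / M.a i) * 2 :=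
          mul_le_mul_of_nonneg_left h5 h6
      _ < 2 := by linarith
  · have hc2 := hc.2
    simp only [Atl.X, yb] at hc2 ⊢
    split_ifs at hc2 ⊢ with hb
    · rw [Complex.norm_exp] at hc2 ⊢
      have e2 : h.re = h₁.re + (h.re - h₁.re) := by ring
      rw [e2, Real.exp_add]
      have h5 : Real.exp (h.re - h₁.re) ≤ 2 :=
        (Real.exp_le_exp.2 (by linarith [(abs_lt.1 h3).2])).trans exp_half_le
      have := Real.exp_pos (h₁.re)
      have := Real.exp_pos (h.re - h₁.re)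
      nlinarith
    · calc ‖h‖ = ‖h₁ + (h - h₁)‖ := by ring_nf
        _ ≤ ‖h₁‖ + ‖h - h₁‖ := norm_add_le _ _
        _ < 2 := by linarith

theorem rot_an (ζ : ℂ) (p : ℂ × ℂ) : AnalyticAt ℂ (rot ζ) p :=
  (analyticAt_const.mul analyticAt_fst).prod (analyticAt_const.mul analyticAt_snd)

private theorem LinkS_jac_rot {ζ : ℂ} (hζ : ζ ≠ 0) (p : ℂ × ℂ) : jac (rot ζ) p = 1 := by
  have h : HasFDerivAt (rot ζ) ((ζ • ContinuousLinearMap.fst ℂ ℂ ℂ).prod (ζ⁻¹ • ContinuousLinearMap.snd ℂ ℂ ℂ)) p :=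
    (hasFDerivAt_fst.const_mul ζ).prodMk (hasFDerivAt_snd.const_mul ζ⁻¹)
  simp [jac, h.fderiv, hζ]

private theorem LinkS_jac_swap {ζ : ℂ} (hζ : ζ ≠ 0) (p : ℂ × ℂ) : jac (fun p => rot ζ p.swap) p = -1 := by
  have h : HasFDerivAt (fun p : ℂ × ℂ => rot ζ p.swap)
      ((ζ • ContinuousLinearMap.snd ℂ ℂ ℂ).prod (ζ⁻¹ • ContinuousLinearMap.fst ℂ ℂ ℂ)) p :=
    (hasFDerivAt_snd.const_mul ζ).prodMk (hasFDerivAt_fst.const_mul ζ⁻¹)
  simp [jac, h.fderiv, hζ]

/-- two cells of the same chart through the same point differ by a translation of `h` -/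
theorem X_shift (M : Model ι Y) {i : ι} {μ ν t₀ h₀ h₁ ζ : ℂ} (hζ : ζ ≠ 0) (ho : M.ex i = false → ζ = 1)
    (h : M.X i μ t₀ h₀ = rot ζ (M.X i ν t₀ h₁)) (t h' : ℂ) : M.X i μ t (h' + (h₀ - h₁)) = rot ζ (M.X i ν t h') := by
  have h1 := congrArg Prod.fst h
  have h2 := congrArg Prod.snd h
  simp only [Atl.X, yb, rot] at h1 h2 ⊢
  by_cases hb : M.ex i = true
  · rw [if_pos hb, if_pos hb] at h2
    rw [if_pos hb, if_pos hb]
    refine Prod.ext ?_ ?_
    · show μ * Complex.exp ((t - M.b i * (h' + (h₀ - h₁))) / M.a i) = ζ * (ν * Complex.exp ((t - M.b i * h') / M.a i))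
      have e1 : (t - M.b i * (h' + (h₀ - h₁))) / (M.a i : ℂ) =
          (t₀ - M.b i * h₀) / M.a i + ((t - t₀) - M.b i * (h' - h₁)) / M.a i := by ring
      have e2 : (t - M.b i * h') / (M.a i : ℂ) =
          (t₀ - M.b i * h₁) / M.a i + ((t - t₀) - M.b i * (h' - h₁)) / M.a i := by ring
      rw [e1, e2, Complex.exp_add, Complex.exp_add, ← mul_assoc, ← mul_assoc, ← mul_assoc, h1]
      ring
    · show Complex.exp (h' + (h₀ - h₁)) = ζ⁻¹ * Complex.exp h'
      rw [Complex.exp_add, Complex.exp_sub, h2]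
      field_simp
  · rw [if_neg hb, if_neg hb] at h2
    rw [if_neg hb, if_neg hb]
    have hb0 := M.b_ex i (by simpa using hb)
    have hz := ho (by simpa using hb)
    subst hz
    simp only [hb0, Int.cast_zero, zero_mul, sub_zero, one_mul, inv_one] at h1 h2 ⊢
    subst h2
    have h3 : μ = ν := mul_right_cancel₀ (Complex.exp_ne_zero _) h1
    rw [h3, sub_self, add_zero]

theorem link_same (M : Model ι Y) {C₀ κ : ℝ} (hC₀ : 0 ≤ C₀) (hB : Bphi M C₀ κ) {i : ι} {μ ν t₀ h₀ h₁ ζ : ℂ} {ε : ℝ} (hε : 0 < ε)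
    (he : Real.exp (t₀.re + ε) ≤ M.ρ) (hεb : ε * (1 + |(M.b i : ℝ)|) ≤ 1 / 2) (hμ : M.k i * μ ^ M.a i = 1)
    (hν : M.k i * ν ^ M.a i = 1) (hζ : ζ ^ M.orb i = 1)
    (hc' : Cen (M.X i ν t₀ h₁)) (h : M.X i μ t₀ h₀ = rot ζ (M.X i ν t₀ h₁)) : LinkQ M κ i μ i ν t₀ h₀ h₁ ε (2 * C₀) := by
  have hζ0 := orb_ne_zero (M.orb_pos i) hζ
  have ho : M.ex i = false → ζ = 1 := by
    intro he
    rcases M.orb_eq i with h1 | h1
    · rw [h1, pow_one] at hζ
      exact hζ
    · rw [he] at h1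
      exact absurd h1 (by simp)
  refine link_of M hC₀ hB (ε := ε) (H := fun _ h => h + (h₀ - h₁)) (τ := rot ζ) hμ hν hε he ?_ ?_ ?_ ?_
  · intro t _ h' _
    exact analyticAt_snd.add analyticAt_const
  · ring
  · intro t _
    have e : h₁ + (h₀ - h₁) = h₀ := by ring
    rw [e]
    nlinarith [norm_nonneg h₀, norm_nonneg (t - t₀)]
  · intro t ht' h' hh'
    have hm := X_near M i hc' hεb ht' hh'
    have hr := rot_norm (M.orb_pos i) hζ (M.X i ν t h')
    have hL := L_X_ne M hν t h'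
    obtain ⟨hs, hg⟩ := M.rot_eq i ζ hζ _ hm hL
    refine ⟨hm, ?_, rot_an ζ _, hs.symm, ?_, X_shift M hζ0 ho h t h'⟩
    · rw [mem_bi] at hm ⊢
      rw [hr.1, hr.2]
      exact hm
    · rw [LinkS_jac_rot hζ0, mul_one, hg t (u_X M hν t h').symm]
      congr 1
      unfold Atl.L rot
      by_cases he : M.ex i = true
      · rw [if_pos he, if_pos he]
        field_simp
      · rw [if_neg he, if_neg he]
        rw [ho (by simpa using he), one_mul]

theorem link_swap (M : Model ι Y) {C₀ κ : ℝ} (hC₀ : 0 ≤ C₀) (hB : Bphi M C₀ κ) {i j : ι} {μ ν t₀ h₀ h₁ ζ : ℂ} {ε : ℝ} (hε : 0 < ε)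
    (he : Real.exp (t₀.re + ε) ≤ M.ρ) (hεb : ε * (1 + |(M.b j : ℝ)|) ≤ 1 / 2) (hs : M.Sw i j) (hμ : M.k i * μ ^ M.a i = 1)
    (hν : M.k j * ν ^ M.a j = 1) (hζ : ζ ^ M.orb i = 1) (hc' : Cen (M.X j ν t₀ h₁))
    (h : M.X i μ t₀ h₀ = rot ζ (M.X j ν t₀ h₁).swap) : LinkQ M κ i μ j ν t₀ h₀ h₁ ε (2 * C₀) := by
  obtain ⟨hei, hej, hbi, haj, hbj, hkj, hsw⟩ := hs
  have hζ0 := orb_ne_zero (M.orb_pos i) hζ
  have ha := a_ne M i
  have hbi0 : M.b i ≠ 0 := by omega
  have hb : (M.b i : ℂ) ≠ 0 := by exact_mod_cast hbi0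
  have haj' : (M.a j : ℂ) = M.b i := by exact_mod_cast congrArg (Int.cast (R := ℂ)) haj
  have hbj' : (M.b j : ℂ) = M.a i := by exact_mod_cast congrArg (Int.cast (R := ℂ)) hbj
  have h1 := congrArg Prod.fst h
  have h2 := congrArg Prod.snd h
  simp only [Atl.X, yb, rot, Prod.fst_swap, Prod.snd_swap, if_pos hei, if_pos hej] at h1 h2
  rw [haj', hbj'] at h2
  have key : ∀ t h' : ℂ, M.X i μ t (h₀ + ((t - t₀) - M.a i * (h' - h₁)) / M.b i) = rot ζ (M.X j ν t h').swap := by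
    intro t h'
    simp only [Atl.X, yb, rot, Prod.swap_prod_mk, if_pos hei, if_pos hej]
    rw [haj', hbj']
    refine Prod.ext ?_ ?_
    · show μ * Complex.exp ((t - M.b i * (h₀ + ((t - t₀) - M.a i * (h' - h₁)) / M.b i)) / M.a i) = ζ * Complex.exp h'
      have e1 : (t - M.b i * (h₀ + ((t - t₀) - M.a i * (h' - h₁)) / M.b i)) / (M.a i : ℂ) =
          (t₀ - M.b i * h₀) / M.a i + (h' - h₁) := by
        field_simp
        ring
      rw [e1, Complex.exp_add, ← mul_assoc, h1, mul_assoc, ← Complex.exp_add]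
      congr 2
      ring
    · show Complex.exp (h₀ + ((t - t₀) - M.a i * (h' - h₁)) / M.b i) = ζ⁻¹ * (ν * Complex.exp ((t - M.a i * h') / M.b i))
      rw [Complex.exp_add, h2, mul_assoc, mul_assoc, ← Complex.exp_add]
      congr 3
      field_simp
      ring
  refine link_of M hC₀ hB (ε := ε)
    (H := fun t h' => h₀ + ((t - t₀) - M.a i * (h' - h₁)) / M.b i) (τ := fun p => rot ζ p.swap) hμ hν hε he ?_ ?_ ?_ ?_
  · intro t _ h' _
    have h3 : AnalyticAt ℂ (fun p : ℂ × ℂ => (p.1 - t₀) - M.a i * (p.2 - h₁)) (t, h') :=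
      (analyticAt_fst.sub analyticAt_const).sub (analyticAt_const.mul (analyticAt_snd.sub analyticAt_const))
    exact analyticAt_const.add (h3.div analyticAt_const hb)
  · simp
  · intro t _
    have e : h₀ + ((t - t₀) - M.a i * (h₁ - h₁)) / (M.b i : ℂ) = h₀ + (t - t₀) / M.b i := by ring
    rw [e]
    have h3 : ‖(t - t₀) / (M.b i : ℂ)‖ ≤ ‖t - t₀‖ := by
      rw [norm_div, Complex.norm_intCast]
      refine div_le_self (norm_nonneg _) ?_
      have h4 : (1 : ℝ) ≤ M.b i := by exact_mod_cast hbi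
      exact h4.trans (le_abs_self _)
    have h5 := norm_add_le h₀ ((t - t₀) / (M.b i : ℂ))
    have := norm_nonneg h₀
    have := norm_nonneg (t - t₀)
    linarith
  · intro t ht' h' hh'
    have hm := X_near M j hc' hεb ht' hh'
    have hL := L_X_ne M hν t h'
    have hm1 : (M.X j ν t h').swap ∈ ball (0 : ℂ × ℂ) 2 := by
      rw [mem_bi] at hm ⊢
      exact ⟨hm.2, hm.1⟩
    have hL1 : M.L i (M.X j ν t h').swap ≠ 0 := by
      unfold Atl.L at hL ⊢
      rw [if_pos hej] at hL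
      rw [if_pos hei, Prod.fst_swap, Prod.snd_swap, mul_comm]
      exact hL
    have hu1 : Complex.exp t = M.u i (M.X j ν t h').swap := by
      have h3 := u_X M hν t h'
      unfold Atl.u at h3 ⊢
      rw [← h3, Prod.fst_swap, Prod.snd_swap, hkj, hbj, ← haj, zpow_natCast, zpow_natCast]
      ring
    have hr := rot_norm (M.orb_pos i) hζ (M.X j ν t h').swap
    obtain ⟨hs1, hg1⟩ := M.rot_eq i ζ hζ _ hm1 hL1
    refine ⟨hm, ?_, ?_, ?_, ?_, key t h'⟩
    · rw [mem_bi] at hm1 ⊢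
      rw [hr.1, hr.2]
      exact hm1
    · exact (analyticAt_const.mul analyticAt_snd).prod (analyticAt_const.mul analyticAt_fst)
    · rw [hs1]
      exact (hsw _ hm hL).1
    · rw [LinkS_jac_swap hζ0, hg1 t hu1, (hsw _ hm hL).2 t (u_X M hν t h').symm]
      unfold Atl.L rot
      rw [if_pos hei, if_pos hej, Prod.fst_swap, Prod.snd_swap]
      field_simp

end Pool.Agent.EG.RL
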