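import Pool.Agent.EG.RL.Q
import Pool.Agent.EG.RL.End
import Pool.Agent.EG.RL.Glue

/-!
# EG RL Main: continuation along a ray, and the extension theorem (holes)

`z = exp t` is a coordinate near a bad value, `f`, `g` are sections near `z = 0` (holomorphic also at `0`, they avoid the horizontal boundary).
`A z` is the integral of `α / dz` from `f z` to `g z`, so `exp t * A (exp t) = P t (h_g t) - P t (h_f t)` if `f` and `g` are in the same cell (`Start`).  Then `A` extends to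
the disc (`rl`).
-/

set_option autoImplicit false

open Topology Filter Metric Set

namespace Pool.Agent.EG.RL

variable {ι Y : Type}

/-- the start: near `t₀` the function `A` is the integral from `f` to `g` in one cell -/
def Start (M : Model ι Y) (f g : ℂ → Y) (A : ℂ → ℂ) (t₀ : ℂ) : Prop :=
  ∃ (i : ι) (μ : ℂ) (hf hg : ℂ → ℂ), Dat M (fun t => f (Complex.exp t)) i μ hf t₀ ∧ Dat M (fun t => g (Complex.exp t)) i μ hg t₀ ∧
    ∀ᶠ t in 𝓝 t₀, A (Complex.exp t) * Complex.exp t = M.P i μ t (hg t) - M.P i μ t (hf t)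

theorem link_dat (M : Model ι Y) [Finite ι] {C₀ κ : ℝ} (hC₀ : 0 ≤ C₀) (hκ : 0 < κ) (hB : Bphi M C₀ κ) {f : ℂ → Y} {i j : ι}
    {μ ν t₀ : ℂ} {hi hj : ℂ → ℂ} (ht : ‖Complex.exp t₀‖ ≤ M.ρ / 2) (h₁ : Dat M f i μ hi t₀) (h₂ : Dat M f j ν hj t₀) :
    ∃ D : ℂ → ℂ, Left (fun t => D t / Complex.exp t) t₀ ∧ ∀ᶠ t in 𝓝 t₀, M.P i μ t (hi t) - M.P j ν t (hj t) = D t := by
  obtain ⟨hμ, hia, hic, hif⟩ := h₁
  obtain ⟨hν, hja, hjc, hjf⟩ := h₂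
  have h3 : ∀ᶠ t in 𝓝 t₀, M.s i (M.X i μ t (hi t)) = M.s j (M.X j ν t (hj t)) := by
    filter_upwards [hif, hjf] with t h4 h5
    rw [← h4, ← h5]
  obtain ⟨ε, hε, hl⟩ := linkQ M hC₀ hB
  obtain ⟨D, hD, hD', h4⟩ := hl i j μ ν t₀ _ _ hμ hν ht hic hjc h3.self_of_nhds
  refine ⟨D, left_of_decay (K := 2 * C₀ * (1 + ‖t₀‖ + ‖hi t₀‖ + ‖hj t₀‖)) hκ hε hD fun t ht' => ?_,
    h4 hi hj hia hja rfl rfl h3⟩
  have h5 := hD' t ht'
  have h6 : 1 + ‖t - t₀‖ + ‖hi t₀‖ + ‖hj t₀‖ ≤ (1 + ‖t₀‖ + ‖hi t₀‖ + ‖hj t₀‖) * (1 + ‖t‖) := by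
    have h7 := norm_sub_le t t₀
    have h8 := norm_nonneg t
    have h9 := norm_nonneg t₀
    have h10 := norm_nonneg (hi t₀)
    have h11 := norm_nonneg (hj t₀)
    nlinarith
  have h7 : 0 ≤ 2 * C₀ * Real.exp (κ * t.re) := by positivity
  calc _ ≤ _ := h5
    _ ≤ 2 * C₀ * Real.exp (κ * t.re) * ((1 + ‖t₀‖ + ‖hi t₀‖ + ‖hj t₀‖) * (1 + ‖t‖)) := mul_le_mul_of_nonneg_left h6 h7
    _ = _ := by ring

/-- the germ of the integral from `f` to `g` extends to the left -/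
def Ext (M : Model ι Y) (f g : ℂ → Y) (t₀ : ℂ) : Prop :=
  ∀ i μ hf j ν hg, Dat M (fun t => f (Complex.exp t)) i μ hf t₀ → Dat M (fun t => g (Complex.exp t)) j ν hg t₀ →
    ∃ L : ℂ → ℂ, Left L t₀ ∧ ∀ᶠ t in 𝓝 t₀, L t = (M.P j ν t (hg t) - M.P i μ t (hf t)) / Complex.exp t

/-- it is enough to extend for one choice of the cells -/
theorem ext_of (M : Model ι Y) [Finite ι] {C₀ κ : ℝ} (hC₀ : 0 ≤ C₀) (hκ : 0 < κ) (hB : Bphi M C₀ κ) {f g : ℂ → Y} {t₀ : ℂ}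
    (ht : ‖Complex.exp t₀‖ ≤ M.ρ / 2) {i j : ι} {μ ν : ℂ} {hf hg L : ℂ → ℂ}
    (h₁ : Dat M (fun t => f (Complex.exp t)) i μ hf t₀) (h₂ : Dat M (fun t => g (Complex.exp t)) j ν hg t₀) (hL : Left L t₀)
    (h : ∀ᶠ t in 𝓝 t₀, L t = (M.P j ν t (hg t) - M.P i μ t (hf t)) / Complex.exp t) : Ext M f g t₀ := by
  intro i' μ' hf' j' ν' hg' h₁' h₂'
  obtain ⟨D₁, hD₁, h3⟩ := link_dat M hC₀ hκ hB ht h₁' h₁
  obtain ⟨D₂, hD₂, h4⟩ := link_dat M hC₀ hκ hB ht h₂' h₂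
  refine ⟨fun t => (L t + D₂ t / Complex.exp t) - D₁ t / Complex.exp t, (hL.add hD₂).sub hD₁, ?_⟩
  filter_upwards [h, h3, h4] with t h5 h6 h7
  rw [h5, ← h6, ← h7]
  ring

/-- a real induction -/
theorem real_ind {E : ℝ → Prop} {x₁ x₀ : ℝ} (hx : x₁ ≤ x₀) (h₁ : E x₁)
    (hs : ∀ x ∈ Icc x₁ x₀, ∃ δ : ℝ, 0 < δ ∧ ∀ y ∈ Icc x₁ x₀, ∀ z ∈ Icc x₁ x₀, |y - x| < δ → |z - x| < δ → y ≤ z → E y → E z) :
    E x₀ := by
  set S : Set ℝ := {x | x ∈ Icc x₁ x₀ ∧ E x} with hS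
  have hne : S.Nonempty := ⟨x₁, ⟨le_rfl, hx⟩, h₁⟩
  have hbd : BddAbove S := ⟨x₀, fun x hx => hx.1.2⟩
  set c := sSup S with hc
  have hcI : c ∈ Icc x₁ x₀ := ⟨le_csSup hbd ⟨⟨le_rfl, hx⟩, h₁⟩, csSup_le hne fun x hx => hx.1.2⟩
  obtain ⟨δ, hδ, h2⟩ := hs c hcI
  obtain ⟨y, hyS, hy⟩ := exists_lt_of_lt_csSup hne (show c - δ < sSup S by rw [← hc]; linarith)
  have hyc : y ≤ c := le_csSup hbd hyS
  have h3 : |y - c| < δ := by rw [abs_lt]; constructor <;> linarith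
  set z := min x₀ (c + δ / 2) with hz
  have hzI : z ∈ Icc x₁ x₀ := ⟨le_min hx (by linarith [hcI.1]), min_le_left _ _⟩
  have hcz : c ≤ z := le_min hcI.2 (by linarith)
  have hz2 : z ≤ c + δ / 2 := min_le_right _ _
  have h4 : |z - c| < δ := by rw [abs_lt]; constructor <;> linarith
  have h5 : E z := h2 y hyS.1 z hzI h3 h4 (hyc.trans hcz) hyS.2
  have h6 : z ≤ c := le_csSup hbd ⟨hzI, h5⟩
  have h7 : x₀ ≤ c := by
    by_contra h8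
    push Not at h8
    rcases le_total x₀ (c + δ / 2) with h9 | h9
    · rw [hz, min_eq_left h9] at h6
      linarith
    · rw [hz, min_eq_right h9] at h6
      linarith
  have h8 : z = x₀ := le_antisymm hzI.2 (h7.trans hcz)
  rw [← h8]
  exact h5

theorem cont (M : Model ι Y) [Finite ι] {C₀ κ : ℝ} (hC₀ : 0 ≤ C₀) (hκ : 0 < κ) (hB : Bphi M C₀ κ) {f g : ℂ → Y} {r : ℝ}
    (hr : r ≤ M.ρ / 2) (hf : ∀ z : ℂ, ‖z‖ < r → M.Hol f z ∧ M.Cov f z)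
    (hg : ∀ z : ℂ, ‖z‖ < r → M.Hol g z ∧ M.Cov g z) {t₀ : ℂ} (ht₀ : ‖Complex.exp t₀‖ < r) : Ext M f g t₀ := by
  have hr0 : 0 < r := lt_of_le_of_lt (norm_nonneg _) ht₀
  have hρ := M.ρ_pos
  have hrρ : r ≤ M.ρ := by linarith
  obtain ⟨R₁, hR₁⟩ := exists_end M hC₀ hκ hB (hf 0 (by rw [norm_zero]; exact hr0)).1 (hf 0 (by rw [norm_zero]; exact hr0)).2
  obtain ⟨R₂, hR₂⟩ := exists_end M hC₀ hκ hB (hg 0 (by rw [norm_zero]; exact hr0)).1 (hg 0 (by rw [norm_zero]; exact hr0)).2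
  set x₁ : ℝ := min t₀.re (min R₁ R₂ - 1) with hx₁
  have hx₁0 : x₁ ≤ t₀.re := min_le_left _ _
  have hx₁1 : x₁ ≤ min R₁ R₂ - 1 := min_le_right _ _
  set q : ℝ → ℂ := fun x => ⟨x, t₀.im⟩ with hq
  have hqre : ∀ x, (q x).re = x := fun x => rfl
  have hqim : ∀ x, (q x).im = t₀.im := fun x => rfl
  have hexp : ∀ x : ℝ, x ≤ t₀.re → ‖Complex.exp (q x)‖ < r := by
    intro x hx
    rw [Complex.norm_exp] at ht₀ ⊢
    exact lt_of_le_of_lt (Real.exp_le_exp.mpr (by rw [hqre]; exact hx)) ht₀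
  have hq0 : q t₀.re = t₀ := Complex.ext rfl rfl
  have hdist : ∀ x y : ℝ, dist (q x) (q y) = |x - y| := by
    intro x y
    rw [Complex.dist_eq]
    have h1 : q x - q y = ((x - y : ℝ) : ℂ) := by
      apply Complex.ext <;> simp [hq]
    rw [h1, Complex.norm_real, Real.norm_eq_abs]
  have key : Ext M f g (q t₀.re) := by
    refine real_ind (E := fun x => Ext M f g (q x)) hx₁0 ?_ ?_
    · obtain ⟨i, μ, hi, h1, h2⟩ := hR₁ (q x₁) (by rw [hqre]; have := min_le_left R₁ R₂; linarith)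
      obtain ⟨j, ν, hj, h3, h4⟩ := hR₂ (q x₁) (by rw [hqre]; have := min_le_right R₁ R₂; linarith)
      exact ext_of M hC₀ hκ hB ((hexp x₁ hx₁0).le.trans hr) h1 h3 (h4.sub h2)
        (Eventually.of_forall fun t => (sub_div _ _ _).symm)
    · intro x hx
      have hxr := hexp x hx.2
      obtain ⟨i, μ, hi, h1⟩ := exists_dat M (hf _ hxr).1 (hf _ hxr).2
      obtain ⟨j, ν, hj, h2⟩ := exists_dat M (hg _ hxr).1 (hg _ hxr).2
      have hev : ∀ᶠ t in 𝓝 (q x), ‖Complex.exp t‖ < r :=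
        (Complex.continuous_exp.norm.continuousAt).eventually (gt_mem_nhds hxr)
      obtain ⟨δ, hδ, h3⟩ := Metric.eventually_nhds_iff.mp ((dat_eventually M h1).and ((dat_eventually M h2).and hev))
      refine ⟨δ, hδ, fun y hy z hz hyx hzx hyz hE => ?_⟩
      have hyb : q y ∈ ball (q x) δ := by rw [mem_ball, hdist]; exact hyx
      have hzb : q z ∈ ball (q x) δ := by rw [mem_ball, hdist]; exact hzx
      obtain ⟨hy1, hy2, -⟩ := h3 hyb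
      obtain ⟨hz1, hz2, -⟩ := h3 hzb
      obtain ⟨L, hL, hLe⟩ := hE i μ hi j ν hj hy1 hy2
      have hF : DifferentiableOn ℂ (fun t => (M.P j ν t (hj t) - M.P i μ t (hi t)) / Complex.exp t) (ball (q x) δ) := by
        intro t ht
        obtain ⟨h4, h5, h6⟩ := h3 ht
        exact (((P_an M h5.1 (h6.trans_le hrρ) h5.2.1 (cen_ball h5.2.2.1)).sub
          (P_an M h4.1 (h6.trans_le hrρ) h4.2.1 (cen_ball h4.2.2.1))).differentiableAt.div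
          Complex.differentiable_exp.differentiableAt (Complex.exp_ne_zero t)).differentiableWithinAt
      obtain ⟨L', hL', hLe'⟩ := left_glue (t₂ := q z) hL rfl hyz hF hyb hzb hLe
      exact ext_of M hC₀ hκ hB ((hexp z hz.2).le.trans hr) hz1 hz2 hL' hLe'
  rw [hq0] at key
  exact key

/-- the extension theorem -/
theorem rl (M : Model ι Y) [Finite ι] {C₀ κ : ℝ} (hC₀ : 0 ≤ C₀) (hκ : 0 < κ) (hB : Bphi M C₀ κ) {f g : ℂ → Y} {A : ℂ → ℂ}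
    {r r' : ℝ} (hr : 0 < r) (hr' : r < r') (hρ : r' ≤ M.ρ / 2) (hf : ∀ z : ℂ, ‖z‖ < r' → M.Hol f z ∧ M.Cov f z)
    (hg : ∀ z : ℂ, ‖z‖ < r' → M.Hol g z ∧ M.Cov g z) (hA : ∀ t₀ : ℂ, t₀.re = Real.log r → Start M f g A t₀) :
    ∃ (B : ℂ → ℂ) (R : ℝ), r < R ∧ DifferentiableOn ℂ B (ball 0 R) ∧ ∀ z : ℂ, ‖z‖ = r → ∀ᶠ w in 𝓝 z, B w = A w := by
  refine glue hr fun t₀ ht₀ => ?_
  obtain ⟨i, μ, hi, hj, h1, h2, h3⟩ := hA t₀ ht₀
  have h4 : ‖Complex.exp t₀‖ < r' := by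
    rw [Complex.norm_exp, ht₀, Real.exp_log hr]
    exact hr'
  obtain ⟨L, hL, h5⟩ := cont M hC₀ hκ hB hρ hf hg h4 i μ hi i μ hj h1 h2
  refine ⟨L, hL, ?_⟩
  filter_upwards [h3, h5] with t h6 h7
  rw [h7, ← h6, mul_div_cancel_right₀ _ (Complex.exp_ne_zero t)]

end Pool.Agent.EG.RL
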