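import Pool.Agent.EG.RL.Prim
import Pool.Agent.EG.RL.LeftA

/-!
# EG RL PLeft: functions with the decay `exp (κ Re t)` (`κ > 0`) and linear growth extend to the left
-/

set_option autoImplicit false

open Topology Filter Metric Set

namespace Pool.Agent.EG.RL

variable {ι Y : Type}

theorem strip_open (t₀ : ℂ) (ε : ℝ) : IsOpen (Strip t₀ ε) := by
  have h1 : IsOpen {t : ℂ | t.re < t₀.re + ε} := isOpen_lt Complex.continuous_re continuous_const
  have h2 : IsOpen {t : ℂ | |t.im - t₀.im| < ε} :=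
    isOpen_lt ((Complex.continuous_im.sub continuous_const).abs) continuous_const
  exact h1.inter h2

private theorem PLeft_bound {κ B K : ℝ} (hκ : 0 < κ) (hB : 1 ≤ B) (hK : 0 ≤ K) (δ : ℝ)
    (hδ : 0 < δ) : ∃ R : ℝ, R ≤ 0 ∧ ∀ x : ℝ, x < R → K * (B - x) * Real.exp (κ * x) < δ := by
  have hm : 0 < min 1 (κ / 2) := lt_min one_pos (by positivity)
  have hlim : Tendsto (fun x : ℝ => Real.exp (κ / 2 * x)) atBot (𝓝 0) :=
    Real.tendsto_exp_atBot.comp (tendsto_id.const_mul_atBot (by positivity))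
  have hpos : 0 < δ * min 1 (κ / 2) / (K * B + 1) := by positivity
  obtain ⟨R, hR⟩ := Filter.eventually_atBot.1 (hlim.eventually_lt_const hpos)
  refine ⟨min R 0, min_le_right _ _, fun x hx => ?_⟩
  have hx0 : x < 0 := lt_of_lt_of_le hx (min_le_right _ _)
  have h1 := hR x (le_of_lt (lt_of_lt_of_le hx (min_le_left _ _)))
  have h2 : min 1 (κ / 2) * (1 - x) * Real.exp (κ / 2 * x) ≤ 1 := by
    have h3 : min 1 (κ / 2) * (1 - x) ≤ Real.exp (-(κ / 2 * x)) := by
      have h4 := Real.add_one_le_exp (-(κ / 2 * x))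
      have h5 : min 1 (κ / 2) ≤ 1 := min_le_left _ _
      have h6 : min 1 (κ / 2) ≤ κ / 2 := min_le_right _ _
      nlinarith
    have h7 := mul_le_mul_of_nonneg_right h3 (Real.exp_pos (κ / 2 * x)).le
    rwa [← Real.exp_add, neg_add_cancel, Real.exp_zero] at h7
  have h8 : Real.exp (κ * x) = Real.exp (κ / 2 * x) * Real.exp (κ / 2 * x) := by
    rw [← Real.exp_add]
    congr 1
    ring
  have h9 : K * (B - x) ≤ K * B * (1 - x) := by
    have : B - x ≤ B * (1 - x) := by nlinarith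
    calc K * (B - x) ≤ K * (B * (1 - x)) := mul_le_mul_of_nonneg_left this hK
      _ = K * B * (1 - x) := by ring
  have he := Real.exp_pos (κ / 2 * x)
  have h10 : (K * B + 1) * Real.exp (κ / 2 * x) < δ * min 1 (κ / 2) := by
    rwa [lt_div_iff₀ (by positivity), mul_comm] at h1
  have h11 : min 1 (κ / 2) * (K * (B - x) * Real.exp (κ * x)) ≤
      K * B * Real.exp (κ / 2 * x) := by
    rw [h8]
    calc min 1 (κ / 2) * (K * (B - x) * (Real.exp (κ / 2 * x) * Real.exp (κ / 2 * x)))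
        ≤ min 1 (κ / 2) * (K * B * (1 - x) * (Real.exp (κ / 2 * x) * Real.exp (κ / 2 * x))) := by
          gcongr
      _ = K * B * Real.exp (κ / 2 * x) * (min 1 (κ / 2) * (1 - x) * Real.exp (κ / 2 * x)) := by
          ring
      _ ≤ K * B * Real.exp (κ / 2 * x) * 1 := by
          gcongr
      _ = K * B * Real.exp (κ / 2 * x) := mul_one _
  have h12 : min 1 (κ / 2) * (K * (B - x) * Real.exp (κ * x)) < min 1 (κ / 2) * δ := by
    nlinarith
  exact lt_of_mul_lt_mul_left h12 hm.le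

/-- a function with decay -/
theorem left_of_decay {D : ℂ → ℂ} {t₀ : ℂ} {ε κ K : ℝ} (hκ : 0 < κ) (hε : 0 < ε) (hD : DifferentiableOn ℂ D (Strip t₀ ε))
    (hK : ∀ t ∈ Strip t₀ ε, ‖D t‖ ≤ K * Real.exp (κ * t.re) * (1 + ‖t‖)) : Left (fun t => D t / Complex.exp t) t₀ := by
  refine ⟨ε, hε, hD.div Complex.differentiable_exp.differentiableOn fun t _ => Complex.exp_ne_zero t, fun δ hδ => ?_⟩
  obtain ⟨R, hR0, hR⟩ := PLeft_bound (κ := κ) (B := 1 + |t₀.im| + ε) (K := |K|) hκ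
    (by have := abs_nonneg t₀.im; linarith) (by positivity) δ hδ
  refine ⟨R, fun t ht htR => ?_⟩
  have ht0 : t.re ≤ 0 := (htR.le).trans hR0
  rw [div_mul_cancel₀ _ (Complex.exp_ne_zero t)]
  have h4 : ‖t‖ ≤ |t.re| + |t.im| := Complex.norm_le_abs_re_add_abs_im t
  have h5 : |t.re| = -t.re := abs_of_nonpos ht0
  have h6 : |t.im| ≤ |t₀.im| + ε := by
    have h7 := ht.2.le
    have h8 : |t.im| ≤ |t.im - t₀.im| + |t₀.im| := by
      have := abs_add_le (t.im - t₀.im) t₀.im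
      rwa [sub_add_cancel] at this
    linarith
  calc ‖D t‖ ≤ K * Real.exp (κ * t.re) * (1 + ‖t‖) := hK t ht
    _ ≤ |K| * Real.exp (κ * t.re) * (1 + ‖t‖) := by
      gcongr
      exact le_abs_self K
    _ ≤ |K| * Real.exp (κ * t.re) * (1 + |t₀.im| + ε - t.re) := by
      gcongr
      linarith
    _ = |K| * (1 + |t₀.im| + ε - t.re) * Real.exp (κ * t.re) := by ring
    _ < δ := hR t.re htR

theorem P_left (M : Model ι Y) {C₀ κ : ℝ} (hC₀ : 0 ≤ C₀) (hκ : 0 < κ) (hB : Bphi M C₀ κ) {i : ι} {μ t₀ : ℂ} {ε C : ℝ} {h : ℂ → ℂ}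
    (hμ : M.k i * μ ^ M.a i = 1) (hε : 0 < ε) (he : Real.exp (t₀.re + ε) ≤ M.ρ) (hh : DifferentiableOn ℂ h (Strip t₀ ε))
    (hX : ∀ t ∈ Strip t₀ ε, M.X i μ t (h t) ∈ ball (0 : ℂ × ℂ) 2) (hC : ∀ t ∈ Strip t₀ ε, ‖h t‖ ≤ C * (1 + ‖t‖)) :
    Left (fun t => M.P i μ t (h t) / Complex.exp t) t₀ := by
  have hexp : ∀ t ∈ Strip t₀ ε, ‖Complex.exp t‖ < M.ρ := by
    intro t ht
    rw [Complex.norm_exp]
    exact lt_of_lt_of_le (Real.exp_lt_exp.2 ht.1) he
  refine left_of_decay (K := C₀ * C) hκ hε ?_ ?_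
  · intro t ht
    have h1 : AnalyticAt ℂ h t := hh.analyticAt ((strip_open t₀ ε).mem_nhds ht)
    exact (P_an M hμ (hexp t ht) h1 (hX t ht)).differentiableAt.differentiableWithinAt
  · intro t ht
    have h1 := P_le hB hμ (hX t ht) (hexp t ht)
    have h2 : 0 ≤ C₀ * Real.exp (κ * t.re) := mul_nonneg hC₀ (Real.exp_pos _).le
    have h3 := mul_le_mul_of_nonneg_left (hC t ht) h2
    calc _ ≤ _ := h1
      _ ≤ _ := h3
      _ = _ := by ring

end Pool.Agent.EG.RL
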